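import Pool.Agent.Helper97.TX.Defs
import Pool.Agent.Helper93.RS.ApV

/-!
TX-F4 (MP_464c42_nt). From a large `radM` of `a t` to a number `d` and the set `U` of the indices with small valuations at all primes of `d`.

Proof. As `caseV` (`Helper93/RS/ApV.lean`) with `f p = {i | ¬ p ^ L ∣ a i}` instead of `{i | ¬ p ∣ v i}` (`pop` gives `d'.primeFactors` the most popular
value `b` of `f`; `d` = product of the primes with `f p = b`). Two indices outside `p` are in `f p` (as `1 ≤ L`), `t` is not (`p ^ (2 L) ∣ a t`); `P` = number of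
subsets; `D ≤ d' ≤ d ^ P`. If `d = 1` take `U = f p0` for any prime `p0` in the product `radM`.
-/

set_option autoImplicit false

open Pool.Agent.Helper87.Camp Pool.Agent.Helper10 Pool.Agent.Helper91.CPX

namespace Pool.Agent.Helper97.TX

open Pool.Agent.Helper24.TU Pool.Agent.Helper24.TV Pool.Agent.Helper87.RP Pool.Agent.Helper93.RS

theorem caseH {n : ℕ} (S : Finset ℕ) (M1 W D P L : ℕ)
    (hP : P = Fintype.card (Finset (Fin (n + 2)))) (hM1 : 1 ≤ M1) (hL : L = P * M1)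
    (a : Fin (n + 2) → ℤ) (t : Fin (n + 2)) (hW : 1 ≤ W) (hD : 1 ≤ D)
    (hfew : ∀ p : ℕ, p.Prime → p ∉ S → ∃ i j, i ≠ j ∧ ¬ (p : ℤ) ∣ a i ∧ ¬ (p : ℤ) ∣ a j)
    (h : D < radM S (2 * L) W (a t)) :
    ∃ U : Finset (Fin (n + 2)), t ∉ U ∧ 2 ≤ U.card ∧ ∃ d : ℕ, Squarefree d ∧ 1 ≤ d ∧ d ≤ D * W ∧
      ((d ^ (2 * L) : ℕ) : ℤ) ∣ a t ∧
      (∀ i ∈ U, ∀ p ∈ d.primeFactors, ¬ (p : ℤ) ^ L ∣ a i) ∧
      (∀ i, i ∉ U → ∀ p ∈ d.primeFactors, (p : ℤ) ^ L ∣ a i) ∧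
      (∀ p ∈ d.primeFactors, ∃ i j, i ≠ j ∧ ¬ (p : ℤ) ∣ a i ∧ ¬ (p : ℤ) ∣ a j) ∧
      D ^ M1 ≤ d ^ L := by
  classical
  have hP1 : 1 ≤ P := by
    rw [hP]
    exact Fintype.card_pos
  have hL1 : 1 ≤ L := by
    rw [hL]
    exact Nat.one_le_iff_ne_zero.2 (Nat.mul_ne_zero (by omega) (by omega))
  obtain ⟨f, hf⟩ : ∃ f : ℕ → Finset (Fin (n + 2)),
    f = fun p : ℕ => Finset.univ.filter (fun i => ¬ (p : ℤ) ^ L ∣ a i) := ⟨_, rfl⟩
  have hfm : ∀ p i, i ∈ f p ↔ ¬ (p : ℤ) ^ L ∣ a i := by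
    intro p i
    rw [hf]
    simp
  have hfc : ∀ p : ℕ, p.Prime → p ∉ S → 2 ≤ (f p).card := by
    intro p hp hpS
    obtain ⟨i, j, hij, h1, h2⟩ := hfew p hp hpS
    have h3 : ({i, j} : Finset (Fin (n + 2))) ⊆ f p := by
      intro k hk
      rw [Finset.mem_insert, Finset.mem_singleton] at hk
      rw [hfm]
      rcases hk with rfl | rfl
      · exact fun h => h1 ((dvd_pow_self _ (by omega)).trans h)
      · exact fun h => h2 ((dvd_pow_self _ (by omega)).trans h)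
    have h4 := Finset.card_le_card h3
    rwa [Finset.card_pair hij] at h4
  obtain ⟨d', hsq, hd1, hd2, hd3, hd4⟩ := bad_d S _ W D (a t) hW hD h
  have hprod : ∏ p ∈ d'.primeFactors, p = d' := Nat.prod_primeFactors_of_squarefree hsq
  obtain ⟨b, hb⟩ := pop d'.primeFactors f
  rw [hprod, ← hP] at hb
  obtain ⟨Q, hQ⟩ : ∃ Q, Q = d'.primeFactors.filter (fun p => f p = b) := ⟨_, rfl⟩
  rw [← hQ] at hb
  have hQm : ∀ p ∈ Q, p ∈ d'.primeFactors ∧ f p = b := by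
    intro p hp
    rw [hQ, Finset.mem_filter] at hp
    exact hp
  have hQpr : ∀ p ∈ Q, p.Prime := fun p hp => (hd4 p (hQm p hp).1).1
  obtain ⟨d, hd⟩ : ∃ d : ℕ, d = ∏ p ∈ Q, p := ⟨_, rfl⟩
  have hd0 : 1 ≤ d := by rw [hd]; exact Finset.prod_pos fun p hp => (hQpr p hp).pos
  have hQsub : Q ⊆ d'.primeFactors := fun p hp => (hQm p hp).1
  have hdd : d ∣ d' := by
    rw [hd]
    conv_rhs => rw [← hprod]
    exact Finset.prod_dvd_prod_of_subset _ _ _ hQsub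
  have hd'0 : 0 < d' := Nat.pos_of_ne_zero hsq.ne_zero
  have hdsq : Squarefree d := hsq.squarefree_of_dvd hdd
  have hpf : d.primeFactors = Q := by rw [hd]; exact pf_prod Q hQpr
  rw [← hd] at hb
  have hfin : ((d ^ (2 * L) : ℕ) : ℤ) ∣ a t := by
    have h1 : ((d ^ (2 * L) : ℕ) : ℤ) ∣ (d' : ℤ) ^ (2 * L) := by
      rw [Nat.cast_pow]
      exact pow_dvd_pow_of_dvd (Int.natCast_dvd_natCast.2 hdd) _
    exact h1.trans hd3
  have hpow : D ^ M1 ≤ d ^ L := by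
    rw [hL, pow_mul]
    exact Nat.pow_le_pow_left (hd1.trans hb) _
  rcases Q.eq_empty_or_nonempty with h0 | ⟨p, hp⟩
  · -- `d = 1`; take any prime
    have hd1' : d = 1 := by rw [hd, h0, Finset.prod_empty]
    obtain ⟨p0, hp0⟩ : ∃ p0, p0 ∈ (a t).natAbs.primeFactors.filter
        (fun p => p ∉ S ∧ p ≤ W ∧ p ^ (2 * L) ∣ (a t).natAbs) := by
      by_contra hne
      push Not at hne
      have h2 : radM S (2 * L) W (a t) = 1 := by
        unfold radM
        rw [Finset.eq_empty_of_forall_notMem hne, Finset.prod_empty]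
      omega
    rw [Finset.mem_filter, Nat.mem_primeFactors] at hp0
    obtain ⟨⟨g1, g2, -⟩, g3, -, g4⟩ := hp0
    refine ⟨f p0, ?_, hfc p0 g1 g3, d, hdsq, hd0, (Nat.le_of_dvd hd'0 hdd).trans hd2, hfin,
      ?_, ?_, ?_, hpow⟩
    · rw [hfm, not_not, ← Nat.cast_pow]
      exact Int.natCast_dvd.2 ((pow_dvd_pow p0 (by omega)).trans g4)
    · intro i _ p hp
      rw [hd1'] at hp
      simp at hp
    · intro i _ p hp
      rw [hd1'] at hp
      simp at hp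
    · intro p hp
      rw [hd1'] at hp
      simp at hp
  · obtain ⟨g1, g2⟩ := hQm p hp
    obtain ⟨g3, g4, g5, g6⟩ := hd4 p g1
    refine ⟨b, ?_, ?_, d, hdsq, hd0, (Nat.le_of_dvd hd'0 hdd).trans hd2, hfin, ?_, ?_, ?_, hpow⟩
    · rw [← g2, hfm, not_not]
      have h1 : (p : ℤ) ∣ (d' : ℤ) := Int.natCast_dvd_natCast.2 (Nat.dvd_of_mem_primeFactors g1)
      exact ((pow_dvd_pow (p : ℤ) (by omega)).trans (pow_dvd_pow_of_dvd h1 (2 * L))).trans hd3
    · rw [← g2]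
      exact hfc p g3 g4
    · intro i hi p' hp'
      rw [hpf] at hp'
      rw [← (hQm p' hp').2, hfm] at hi
      exact hi
    · intro i hi p' hp'
      rw [hpf] at hp'
      rw [← (hQm p' hp').2, hfm, not_not] at hi
      exact hi
    · intro p' hp'
      rw [hpf] at hp'
      have h5 := hd4 p' (hQsub hp')
      exact hfew p' h5.1 h5.2.1

end Pool.Agent.Helper97.TX
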