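import Pool.Agent.Helper97.TX.Defs
import Pool.Agent.Helper87.TX.Core2
import Pool.Agent.Helper93.RS.Core

/-!
TX-F5 (MP_464c42_nt). The second clause of `Reg` in `apCore` (`Helper93/RS/Core.lean`) with free exponents, in two parts.
`corePL`: the pairs `a t` nice, `a b` bad at the deeper level (`bad_pair` and `regPL`). `coreNS`: `a t` nice and no small ratio (`core2`).
(helper97 statements, helper87 proofs)
-/

set_option autoImplicit false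

open Pool.Agent.Helper87.Camp Pool.Agent.Helper10 Pool.Agent.Helper91.CPX

namespace Pool.Agent.Helper97.TX

open Pool.Agent.Helper24.TU Pool.Agent.Helper24.TV Pool.Agent.Helper87.RP

private lemma ap_large (c : ℝ) (hc : 0 < c) (K : ℝ) :
    ∃ N1 : ℕ, 1 ≤ N1 ∧ ∀ N : ℕ, N1 ≤ N → K ≤ (N : ℝ) ^ c := by
  have h := (tendsto_rpow_atTop hc).comp tendsto_natCast_atTop_atTop
  obtain ⟨N1, hN1⟩ := Filter.eventually_atTop.1 (h.eventually_ge_atTop K)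
  exact ⟨max N1 1, le_max_right _ _, fun N hN => hN1 N (le_trans (le_max_left _ _) hN)⟩

private lemma ceil_facts (x : ℝ) (hx : 1 ≤ x) :
    x ≤ (⌈x⌉₊ : ℝ) ∧ (⌈x⌉₊ : ℝ) ≤ 2 * x ∧ 1 ≤ ⌈x⌉₊ := by
  refine ⟨Nat.le_ceil _, ?_, Nat.one_le_ceil_iff.2 (by linarith)⟩
  have := Nat.ceil_lt_add_one (show 0 ≤ x by linarith)
  linarith

theorem corePL (n : ℕ) (hn1 : 1 ≤ n) (ε : ℝ) (hε : 0 < ε) (κD κW : ℝ) (hD0 : 0 < κD)
    (hDε : κD ≤ ε / 16) (hD1 : κD ≤ 1 / 16) (hW0 : 0 < κW) (hWD : κW ≤ κD / 2)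
    (MA : ℕ) (hMA : 1 ≤ MA) :
    ∃ (M3 : ℕ) (κ2 lam0 : ℝ), 1 ≤ M3 ∧ 0 < κ2 ∧ κ2 ≤ κW ∧ 0 < lam0 ∧
      ∀ lam : ℝ, 0 < lam → lam ≤ lam0 → ∀ S : Finset ℕ,
      ∃ (C : ℝ) (N1 : ℕ), 1 ≤ C ∧ ∀ N : ℕ, N1 ≤ N → 1 ≤ N →
      ∀ Y : Fin (n + 2) → ℕ, (∀ i, 1 ≤ Y i ∧ (Y i : ℝ) ≤ (N : ℝ) ^ lam) →
      ∀ t b : Fin (n + 2), t ≠ b → ∀ T : Finset (Fin (n + 2) → ℤ),
      (∀ a ∈ T, (∀ i, a i ∈ Rset S (Y i) N) ∧ ∑ i, a i = 0 ∧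
        radM S MA ⌈(N : ℝ) ^ (κW * lam)⌉₊ (a t) ≤ ⌈(N : ℝ) ^ (κD * lam)⌉₊ ∧
        ⌈(N : ℝ) ^ (κD * lam)⌉₊ * ⌈(N : ℝ) ^ (κD * lam)⌉₊ <
          radM S M3 ⌈(N : ℝ) ^ (κ2 * lam)⌉₊ (a b)) →
      (T.card : ℝ) ≤ C * ((∏ h ∈ (Finset.univ.erase t).erase b, (Y h : ℝ)) *
        (N : ℝ) ^ (ε * lam)) := by
  classical
  obtain ⟨H1, hH1, hH1κ⟩ : ∃ H : ℕ, 1 ≤ H ∧ 2 ≤ κW * H := by
    refine ⟨⌈2 / κW⌉₊, Nat.one_le_ceil_iff.2 (by positivity), ?_⟩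
    have h1 := Nat.le_ceil (2 / κW)
    rw [div_le_iff₀ hW0] at h1
    linarith
  obtain ⟨M2, hM2, hPLr⟩ := regPL n MA H1 hn1 hMA (κD / 2) (ε / 4) (by positivity) (by positivity)
  obtain ⟨M3, hM3d⟩ : ∃ M3 : ℕ, M3 = MA + M2 := ⟨_, rfl⟩
  have hM3 : 1 ≤ M3 := by omega
  have hM3R : (1 : ℝ) ≤ M3 := by exact_mod_cast hM3
  obtain ⟨κ2, hκ20, hκ2κ, hκ2M⟩ : ∃ κ2 : ℝ, 0 < κ2 ∧ κ2 ≤ κW ∧ κ2 * M3 ≤ 1 / 2 := by
    refine ⟨min κW (1 / (2 * M3)), lt_min (by positivity) (by positivity), min_le_left _ _, ?_⟩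
    calc min κW (1 / (2 * (M3 : ℝ))) * M3 ≤ 1 / (2 * (M3 : ℝ)) * M3 :=
          mul_le_mul_of_nonneg_right (min_le_right _ _) (by linarith)
      _ = 1 / 2 := by field_simp
  have hMAR : (1 : ℝ) ≤ MA := by exact_mod_cast hMA
  refine ⟨M3, κ2, 1 / (2 * MA), hM3, hκ20, hκ2κ, by positivity, ?_⟩
  intro lam hlam hlam0 S
  have hlamMA : lam * MA ≤ 1 / 2 := by
    rw [le_div_iff₀ (by positivity)] at hlam0
    linarith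
  obtain ⟨m, hmdef⟩ : ∃ m : ℕ, m = ⌈1 / lam⌉₊ := ⟨_, rfl⟩
  have hmlam : 1 ≤ lam * m := by
    have h1 := Nat.le_ceil (1 / lam)
    rw [← hmdef, div_le_iff₀ hlam] at h1
    linarith
  have hmle : ∀ s : ℕ, lam * s ≤ 1 / 2 → s ≤ m := by
    intro s hs
    have h3 : lam * s ≤ lam * m := by linarith
    have h1 : (s : ℝ) ≤ m := le_of_mul_le_mul_left h3 hlam
    exact_mod_cast h1
  have hmMA : MA ≤ H1 * m := (hmle MA hlamMA).trans (Nat.le_mul_of_pos_left _ hH1)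
  obtain ⟨C2, hC2, hc2⟩ := hPLr m hmMA S (ε / 4 * lam) (by positivity)
  obtain ⟨Na, hNa1, hNa⟩ := ap_large lam hlam 3
  obtain ⟨Nc, hNc1, hNc⟩ := ap_large (lam / 2) (by positivity) (2 ^ M3 + 4)
  obtain ⟨N1, hN1a, hN1c⟩ : ∃ N1 : ℕ, Na ≤ N1 ∧ Nc ≤ N1 :=
    ⟨max Na Nc, le_max_left _ _, le_max_right _ _⟩
  have h3ε : (1 : ℝ) ≤ 3 ^ (ε / 4) := Real.one_le_rpow (by norm_num) (by positivity)
  obtain ⟨K2, hK2⟩ : ∃ K2 : ℝ, K2 = C2 * (2 ^ 4 * 3 ^ (ε / 4)) := ⟨_, rfl⟩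
  have hK20 : 0 ≤ K2 := by rw [hK2]; positivity
  refine ⟨1 + K2, N1, by linarith, ?_⟩
  intro N hNN hN
  have hNR : (1 : ℝ) ≤ (N : ℝ) := by exact_mod_cast hN
  have hN0 : (0 : ℝ) < (N : ℝ) := by linarith
  have hNa' := hNa N (by omega)
  have hNc' := hNc N (by omega)
  obtain ⟨y0, hy0⟩ : ∃ y0 : ℝ, y0 = (N : ℝ) ^ lam := ⟨_, rfl⟩
  have hy01 : 1 ≤ y0 := by rw [hy0]; exact Real.one_le_rpow hNR hlam.le
  rw [← hy0] at hNa'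
  obtain ⟨X, hX⟩ : ∃ X : ℕ, X = ⌈y0⌉₊ + 1 := ⟨_, rfl⟩
  have hXl : y0 ≤ (X : ℝ) := by
    have := Nat.le_ceil y0
    rw [hX]; push_cast; linarith
  have hXu : (X : ℝ) ≤ 3 * y0 := by
    have := Nat.ceil_lt_add_one (show 0 ≤ y0 by linarith)
    rw [hX]; push_cast; linarith
  have hX2 : 2 ≤ X := by
    have h1 : 1 ≤ ⌈y0⌉₊ := Nat.one_le_ceil_iff.2 (by linarith)
    omega
  obtain ⟨w1, hw1⟩ : ∃ w1 : ℝ, w1 = (N : ℝ) ^ (κW * lam) := ⟨_, rfl⟩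
  have hw11 : 1 ≤ w1 := by rw [hw1]; exact Real.one_le_rpow hNR (by positivity)
  obtain ⟨W1, hW1⟩ : ∃ W : ℕ, W = ⌈w1⌉₊ := ⟨_, rfl⟩
  obtain ⟨hW1l, hW1u, hW11⟩ := ceil_facts w1 hw11
  rw [← hW1] at hW1l hW1u hW11
  obtain ⟨w2, hw2⟩ : ∃ w2 : ℝ, w2 = (N : ℝ) ^ (κ2 * lam) := ⟨_, rfl⟩
  have hw21 : 1 ≤ w2 := by rw [hw2]; exact Real.one_le_rpow hNR (by positivity)
  obtain ⟨W2, hW2⟩ : ∃ W : ℕ, W = ⌈w2⌉₊ := ⟨_, rfl⟩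
  obtain ⟨hW2l, hW2u, hW21⟩ := ceil_facts w2 hw21
  rw [← hW2] at hW2l hW2u hW21
  obtain ⟨d0, hd0⟩ : ∃ d0 : ℝ, d0 = (N : ℝ) ^ (κD * lam) := ⟨_, rfl⟩
  have hd01 : 1 ≤ d0 := by rw [hd0]; exact Real.one_le_rpow hNR (by positivity)
  obtain ⟨D, hD⟩ : ∃ D : ℕ, D = ⌈d0⌉₊ := ⟨_, rfl⟩
  obtain ⟨hDl, hDu, hD1'⟩ := ceil_facts d0 hd01
  rw [← hD] at hDl hDu hD1'
  rw [← hw1, ← hW1, ← hd0, ← hD, ← hw2, ← hW2]
  have hW12 : W2 ≤ W1 := by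
    rw [hW1, hW2]
    apply Nat.ceil_mono
    rw [hw1, hw2]
    apply Real.rpow_le_rpow_of_exponent_le hNR
    exact mul_le_mul_of_nonneg_right hκ2κ hlam.le
  have hκW1 : κW ≤ 1 := by linarith
  have hW1X : W1 ≤ X := by
    have h1 : w1 ≤ y0 := by
      rw [hw1, hy0]
      apply Real.rpow_le_rpow_of_exponent_le hNR
      linarith [mul_le_mul_of_nonneg_right hκW1 hlam.le]
    have h2 : ⌈w1⌉₊ ≤ ⌈y0⌉₊ := Nat.ceil_mono h1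
    omega
  have h81 : (3 : ℝ) ≤ y0 := hNa'
  have hXyy : (X : ℝ) ≤ (N : ℝ) ^ (lam + lam) := by
    calc (X : ℝ) ≤ 3 * y0 := hXu
      _ ≤ y0 * y0 := mul_le_mul_of_nonneg_right h81 (by linarith)
      _ = (N : ℝ) ^ (lam + lam) := by rw [hy0, Real.rpow_add hN0]
  have hXW1 : X ≤ W1 ^ H1 := by
    have h1 : (X : ℝ) ≤ (W1 : ℝ) ^ H1 := by
      calc (X : ℝ) ≤ (N : ℝ) ^ (lam + lam) := hXyy
        _ ≤ (N : ℝ) ^ (κW * lam * (H1 : ℝ)) := by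
            apply Real.rpow_le_rpow_of_exponent_le hNR
            linarith [mul_le_mul_of_nonneg_right hH1κ hlam.le]
        _ = w1 ^ H1 := by rw [hw1, Real.rpow_mul hN0.le, Real.rpow_natCast]
        _ ≤ (W1 : ℝ) ^ H1 := pow_le_pow_left₀ (by linarith) hW1l _
    exact_mod_cast h1
  have hNW1 : N ≤ W1 ^ (H1 * m) := by
    have h1 : (N : ℝ) ≤ (W1 : ℝ) ^ (H1 * m) := by
      calc (N : ℝ) = (N : ℝ) ^ (1 : ℝ) := (Real.rpow_one _).symm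
        _ ≤ (N : ℝ) ^ (κW * lam * ((H1 * m : ℕ) : ℝ)) := by
          apply Real.rpow_le_rpow_of_exponent_le hNR
          push_cast
          have h2 : 2 * 1 ≤ (κW * H1) * (lam * m) :=
            mul_le_mul hH1κ hmlam (by norm_num) (by positivity)
          linarith [h2]
        _ = w1 ^ (H1 * m) := by rw [hw1, Real.rpow_mul hN0.le, Real.rpow_natCast]
        _ ≤ (W1 : ℝ) ^ (H1 * m) := pow_le_pow_left₀ (by linarith) hW1l _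
    exact_mod_cast h1
  have hhalf : (N : ℝ) ^ (lam / 2) * (N : ℝ) ^ (lam / 2) = y0 := by
    rw [hy0, ← Real.rpow_add hN0]
    congr 1
    ring
  have hhalf1 : (1 : ℝ) ≤ (N : ℝ) ^ (lam / 2) := Real.one_le_rpow hNR (by positivity)
  have hW2M : W2 ^ M3 ≤ X := by
    have h1 : ((W2 : ℝ)) ^ M3 ≤ (X : ℝ) := by
      have e1 : w2 ^ M3 ≤ (N : ℝ) ^ (lam / 2) := by
        rw [hw2, ← Real.rpow_natCast, ← Real.rpow_mul hN0.le]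
        apply Real.rpow_le_rpow_of_exponent_le hNR
        linarith [mul_le_mul_of_nonneg_right hκ2M hlam.le]
      calc (W2 : ℝ) ^ M3 ≤ (2 * w2) ^ M3 := pow_le_pow_left₀ (Nat.cast_nonneg _) hW2u _
        _ = 2 ^ M3 * w2 ^ M3 := by rw [mul_pow]
        _ ≤ (N : ℝ) ^ (lam / 2) * (N : ℝ) ^ (lam / 2) :=
            mul_le_mul (by linarith) e1 (by positivity) (by positivity)
        _ = y0 := hhalf
        _ ≤ X := hXl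
    exact_mod_cast h1
  have hVX : D * W2 ≤ X := by
    have h1 : ((D : ℝ) * W2) ≤ (X : ℝ) := by
      have e1 : d0 * w2 ≤ (N : ℝ) ^ (lam / 2) := by
        rw [hd0, hw2, ← Real.rpow_add hN0]
        apply Real.rpow_le_rpow_of_exponent_le hNR
        linarith [mul_le_mul_of_nonneg_right hD1 hlam.le, mul_le_mul_of_nonneg_right hκ2κ hlam.le,
          mul_le_mul_of_nonneg_right hWD hlam.le]
      have e2 : (4 : ℝ) ≤ (N : ℝ) ^ (lam / 2) := by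
        have : (0 : ℝ) ≤ 2 ^ M3 := by positivity
        linarith
      calc (D : ℝ) * W2 ≤ (2 * d0) * (2 * w2) := by gcongr
        _ = 4 * (d0 * w2) := by ring
        _ ≤ (N : ℝ) ^ (lam / 2) * (N : ℝ) ^ (lam / 2) :=
            mul_le_mul e2 e1 (by positivity) (by positivity)
        _ = y0 := hhalf
        _ ≤ X := hXl
    exact_mod_cast h1
  have hXκD : (X : ℝ) ^ (κD / 2) ≤ (D : ℝ) := by
    calc (X : ℝ) ^ (κD / 2) ≤ ((N : ℝ) ^ (lam + lam)) ^ (κD / 2) :=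
          Real.rpow_le_rpow (Nat.cast_nonneg _) hXyy (by positivity)
      _ = d0 := by
          rw [hd0, ← Real.rpow_mul hN0.le]
          congr 1
          ring
      _ ≤ D := hDl
  intro Y hY t b i1 U hU
  have hY1 : ∀ i, 1 ≤ Y i := fun i => (hY i).1
  have hYX : ∀ i, Y i ≤ X := by
    intro i
    have h2 := (hY i).2
    have h1 : (Y i : ℝ) ≤ (X : ℝ) := by
      rw [← hy0] at h2
      linarith
    exact_mod_cast h1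
  obtain ⟨R, hR⟩ : ∃ R : ℝ, R = ∏ h ∈ (Finset.univ.erase t).erase b, (Y h : ℝ) := ⟨_, rfl⟩
  have hR0 : 0 ≤ R := by rw [hR]; positivity
  have hX3 : (X : ℝ) ^ (ε / 4) ≤ 3 ^ (ε / 4) * (N : ℝ) ^ (lam * (ε / 4)) := by
    calc (X : ℝ) ^ (ε / 4) ≤ (3 * y0) ^ (ε / 4) :=
          Real.rpow_le_rpow (Nat.cast_nonneg _) hXu (by positivity)
      _ = _ := by
          rw [Real.mul_rpow (by norm_num) (by linarith), hy0, ← Real.rpow_mul hN0.le]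
  have h2 := hc2 N X W1 D Y hN hX2 hW1X hD1' hXW1 hNW1 (fun i => ⟨hY1 i, hYX i⟩) (D * W2) hVX
    t b i1 U (by
      intro a ha
      obtain ⟨g1, g2, hat, hbad⟩ := hU a ha
      obtain ⟨d, f1, f2, f3, f4, f5⟩ := bad_pair S MA W1 M3 W2 D (a t) (a b) hMA hM3 hW21
        hW12 hD1' (mem_Rset.1 (g1 t)).1 (mem_Rset.1 (g1 b)).1 hat hbad
      refine ⟨g1, g2, hat, d, f1, f3, ?_, ?_, ?_, ?_⟩
      · exact hXκD.trans (by exact_mod_cast f2)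
      · intro p hp
        have h3 := (f5 p hp).2.2.1
        have h4 := (f5 p hp).1.one_lt.le
        calc p ^ M2 ≤ p ^ M3 := Nat.pow_le_pow_right h4 (by omega)
          _ ≤ W2 ^ M3 := Nat.pow_le_pow_left h3 _
          _ ≤ X := hW2M
      · rw [← hM3d]
        exact f4
      · exact fun p hp => (f5 p hp).2.2.2)
  rw [← hR] at h2
  have e1 : ((D * W2 : ℕ) : ℝ) * (D : ℝ) ^ 2 ≤
      2 ^ 4 * ((N : ℝ) ^ (κ2 * lam) * (N : ℝ) ^ (κD * lam * 3)) := by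
    push_cast
    calc (D : ℝ) * W2 * (D : ℝ) ^ 2 ≤ (2 * d0) * (2 * w2) * (2 * d0) ^ 2 := by gcongr
      _ = 2 ^ 4 * (w2 * d0 ^ 3) := by ring
      _ = _ := by
          rw [hw2, hd0, Real.rpow_mul hN0.le (κD * lam) 3]
          congr 2
          exact (Real.rpow_natCast _ 3).symm
  have e2 : (N : ℝ) ^ (κ2 * lam) * (N : ℝ) ^ (κD * lam * 3) * (N : ℝ) ^ (lam * (ε / 4)) *
      (N : ℝ) ^ (ε / 4 * lam) ≤ (N : ℝ) ^ (ε * lam) := by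
    rw [← Real.rpow_add hN0, ← Real.rpow_add hN0, ← Real.rpow_add hN0]
    apply Real.rpow_le_rpow_of_exponent_le hNR
    linarith [mul_le_mul_of_nonneg_right hDε hlam.le,
      mul_le_mul_of_nonneg_right hκ2κ hlam.le, mul_le_mul_of_nonneg_right hWD hlam.le,
      mul_pos hε hlam]
  have e5 : 0 ≤ R * (N : ℝ) ^ (ε * lam) := by positivity
  rw [← hR]
  calc (U.card : ℝ) ≤ _ := h2
    _ = C2 * (((D * W2 : ℕ) : ℝ) * (D : ℝ) ^ 2) *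
        (R * ((X : ℝ) ^ (ε / 4) * (N : ℝ) ^ (ε / 4 * lam))) := by ring
    _ ≤ C2 * (2 ^ 4 * ((N : ℝ) ^ (κ2 * lam) * (N : ℝ) ^ (κD * lam * 3))) *
        (R * ((3 ^ (ε / 4) * (N : ℝ) ^ (lam * (ε / 4))) * (N : ℝ) ^ (ε / 4 * lam))) := by
        gcongr
    _ = K2 * (R * ((N : ℝ) ^ (κ2 * lam) * (N : ℝ) ^ (κD * lam * 3) *
        (N : ℝ) ^ (lam * (ε / 4)) * (N : ℝ) ^ (ε / 4 * lam))) := by rw [hK2]; ring
    _ ≤ K2 * (R * (N : ℝ) ^ (ε * lam)) := by gcongr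
    _ ≤ (1 + K2) * (R * (N : ℝ) ^ (ε * lam)) :=
        mul_le_mul_of_nonneg_right (by linarith) e5

theorem coreNS (n : ℕ) (hn1 : 1 ≤ n) (ε : ℝ) (hε : 0 < ε) (κD κW : ℝ) (hD0 : 0 < κD)
    (hDε : κD ≤ ε / 16) (hD1 : κD ≤ 1 / 16) (hW0 : 0 < κW) (hWD : κW ≤ κD / 2)
    (MA : ℕ) (hMA : 1 ≤ MA) :
    ∃ lam0 : ℝ, 0 < lam0 ∧ ∀ lam : ℝ, 0 < lam → lam ≤ lam0 → ∀ (S : Finset ℕ) (G : ℕ),
      ∃ (C : ℝ) (N1 : ℕ), 1 ≤ C ∧ ∀ N : ℕ, N1 ≤ N → 1 ≤ N →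
      ∃ Lm : ℤ, 1 ≤ Lm ∧ (G : ℤ) ^ 2 * ((2 * n + 1) * Lm ^ (2 * n + 1)) < N ∧
      ∀ Y : Fin (n + 2) → ℕ, (∀ i, 1 ≤ Y i ∧ (Y i : ℝ) ≤ (N : ℝ) ^ lam) →
      ∀ t b : Fin (n + 2), t ≠ b → ∀ T : Finset (Fin (n + 2) → ℤ),
      (∀ a ∈ T, (∀ i, a i ∈ Rset S (Y i) N) ∧ ∑ i, a i = 0 ∧
        radM S MA ⌈(N : ℝ) ^ (κW * lam)⌉₊ (a t) ≤ ⌈(N : ℝ) ^ (κD * lam)⌉₊ ∧
        NoSmallRatio (a t) (a t + a b) Lm) →
      (T.card : ℝ) ≤ C * ((∏ h ∈ (Finset.univ.erase t).erase b, (Y h : ℝ)) *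
        (N : ℝ) ^ (ε * lam)) := by
  obtain ⟨lam0, h0, h⟩ := Pool.Agent.Helper87.TX.core2 n MA hn1 hMA ε κD κW hε hD0 hDε hD1 hW0 hWD
  refine ⟨lam0, h0, fun lam hlam hl S G => ?_⟩
  obtain ⟨C, N1, hC, h2⟩ := h lam hlam hl S G 1
  refine ⟨C, N1, hC, fun N hN hN1 => ?_⟩
  obtain ⟨Lm, hL, hLN, h3⟩ := h2 N hN hN1
  refine ⟨Lm, hL, ?_, h3⟩
  simpa using hLN

end Pool.Agent.Helper97.TX
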