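import Pool.Agent.Helper97.TX.Coll

/-!
TX-F3 (MP_464c42_nt). Two moduli: `a z + a h` is divisible by `d ^ LB`, `a z + a h'` by `d' ^ LA`.

Proof. As `reg1` (`Helper87/RP/Reg1.lean`). Let `δ = ε / (n + 4)`. Split `T` by `d ≤ V`, `d' ≤ V'` and the values `a k`, `k ≠ z, h, h', m`
(`rset_count`: `n - 2` indices, `∏ C1 Y_k N^δ` choices). In one class `(a z, a h)` is a pair of
`(Rset S (Y z) N).filter coprime × (Rset S (Y h) N).filter coprime` with sum `0` modulo `d ^ LB` (`pair_mod2` with `k = 0`, `collisionR`):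
at most `C2 √(Y z Y h) N^(c + 2 δ)`, `c = 2 / (E + 1)`; given this pair, `a h'` lies in
one class (`- a z`) modulo `d' ^ LA` of `(Rset S (Y h') N).filter coprime`: at most `√(C2 Y h' N^(c + 2 δ))` by `linf` (`Coll.lean`) and `collisionR`;
`a m` is determined by the sum. (`card_le_real` twice.) If `d = 1` or `d' = 1` then `(2 ^ E * Y) ^ 4 ≤ 1` is false.
-/

set_option autoImplicit false

open Pool.Agent.Helper87.Camp Pool.Agent.Helper10 Pool.Agent.Helper91.CPX

namespace Pool.Agent.Helper97.TX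

open Pool.Agent.Helper24.TU Pool.Agent.Helper24.TV Pool.Agent.Helper87.RP

theorem two (n E : ℕ) (hn : 2 ≤ n) (hE : 1 ≤ E) (S : Finset ℕ) (ε : ℝ) (hε : 0 < ε) :
    ∃ C : ℝ, 1 ≤ C ∧ ∀ (N : ℕ) (Y : Fin (n + 2) → ℕ), 1 ≤ N → (∀ i, 1 ≤ Y i) →
      ∀ LA LB V V' : ℕ, ∀ z h h' m : Fin (n + 2), z ≠ h → z ≠ h' → h ≠ h' → m ≠ z → m ≠ h →
      m ≠ h' → ∀ T : Finset (Fin (n + 2) → ℤ),
      (∀ a ∈ T, (∀ i, a i ∈ Rset S (Y i) N) ∧ ∑ i, a i = 0 ∧
        (∃ d : ℕ, 1 ≤ d ∧ d ≤ V ∧ d ^ LB ≤ N ∧ ((d ^ LB : ℕ) : ℤ) ∣ a z + a h ∧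
          IsCoprime (a z) (d : ℤ) ∧ IsCoprime (a h) (d : ℤ) ∧
          (2 ^ E * Y z) ^ 4 ≤ d ^ LB ∧ (2 ^ E * Y h) ^ 4 ≤ d ^ LB) ∧
        (∃ d : ℕ, 1 ≤ d ∧ d ≤ V' ∧ d ^ LA ≤ N ∧ ((d ^ LA : ℕ) : ℤ) ∣ a z + a h' ∧
          IsCoprime (a h') (d : ℤ) ∧ (2 ^ E * Y h') ^ 4 ≤ d ^ LA)) →
      (T.card : ℝ) ≤ C * ((V : ℝ) * V') *
        (((∏ k ∈ (((Finset.univ.erase z).erase h).erase h').erase m, (Y k : ℝ)) *
          (Real.sqrt ((Y z : ℝ) * Y h) * Real.sqrt (Y h' : ℝ))) *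
            (N : ℝ) ^ (3 / ((E : ℝ) + 1) + ε)) := by
  classical
  obtain ⟨δ, hδ⟩ : ∃ δ : ℝ, δ = ε / ((n : ℝ) + 4) := ⟨_, rfl⟩
  have hδ0 : 0 < δ := by rw [hδ]; positivity
  obtain ⟨C1, hC1, h1⟩ := rset_count S δ hδ0
  obtain ⟨C2, hC2, h2⟩ := collisionR S E hE δ hδ0
  refine ⟨C1 ^ (n - 2) * (C2 * C2), one_le_mul_of_one_le_of_one_le (one_le_pow₀ hC1)
    (one_le_mul_of_one_le_of_one_le hC2 hC2),
    fun N Y hN hY LA LB V V' z j w m hzj hzw hjw hmz hmj hmw T hT => ?_⟩
  have hN1 : (1 : ℝ) ≤ N := by exact_mod_cast hN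
  have hN0 : (0 : ℝ) < N := by linarith
  obtain ⟨c, hc⟩ : ∃ c : ℝ, c = 2 / ((E : ℝ) + 1) := ⟨_, rfl⟩
  have hc0 : 0 < c := by rw [hc]; positivity
  have hc3 : 3 / ((E : ℝ) + 1) = 3 / 2 * c := by rw [hc]; ring
  rw [← hc] at h2
  rw [hc3]
  have hC20 : (0 : ℝ) ≤ C2 := by linarith
  have m1 : j ∈ (Finset.univ : Finset (Fin (n + 2))).erase z :=
    Finset.mem_erase.2 ⟨hzj.symm, Finset.mem_univ _⟩
  have m2 : w ∈ ((Finset.univ : Finset (Fin (n + 2))).erase z).erase j :=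
    Finset.mem_erase.2 ⟨hjw.symm, Finset.mem_erase.2 ⟨hzw.symm, Finset.mem_univ _⟩⟩
  have m3 : m ∈ (((Finset.univ : Finset (Fin (n + 2))).erase z).erase j).erase w :=
    Finset.mem_erase.2 ⟨hmw, Finset.mem_erase.2 ⟨hmj, Finset.mem_erase.2 ⟨hmz,
      Finset.mem_univ _⟩⟩⟩
  obtain ⟨G, hG⟩ : ∃ G : Finset (Fin (n + 2)),
    G = (((Finset.univ.erase z).erase j).erase w).erase m := ⟨_, rfl⟩
  rw [← hG]
  have hsplit : ∀ a : Fin (n + 2) → ℤ,
      ∑ i, a i = a z + (a j + (a w + (a m + ∑ i ∈ G, a i))) := by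
    intro a
    rw [hG, ← Finset.add_sum_erase Finset.univ a (Finset.mem_univ z),
      ← Finset.add_sum_erase _ a m1, ← Finset.add_sum_erase _ a m2, ← Finset.add_sum_erase _ a m3]
  have hGc : G.card = n - 2 := by
    rw [hG, Finset.card_erase_of_mem m3, Finset.card_erase_of_mem m2,
      Finset.card_erase_of_mem m1, Finset.card_erase_of_mem (Finset.mem_univ z),
      Finset.card_univ, Fintype.card_fin]
    omega
  have hmemG : ∀ i, i ≠ z → i ≠ j → i ≠ w → i ≠ m → i ∈ G := by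
    intro i e1 e2 e3 e4
    rw [hG, Finset.mem_erase, Finset.mem_erase, Finset.mem_erase, Finset.mem_erase]
    exact ⟨e4, e3, e2, e1, Finset.mem_univ _⟩
  choose! gd hd1 hdV hdN hdiv hcz hcj hbz hbj using fun a ha => (hT a ha).2.2.1
  choose! gd' hd1' hdV' hdN' hdiv' hcw hbw using fun a ha => (hT a ha).2.2.2
  obtain ⟨K1, hK1⟩ : ∃ K : ℝ,
    K = C2 * (Real.sqrt ((Y z : ℝ) * Y j) * (N : ℝ) ^ (c + 2 * δ)) := ⟨_, rfl⟩
  obtain ⟨K2, hK2⟩ : ∃ K : ℝ,
    K = C2 * (Real.sqrt (Y w : ℝ) * (N : ℝ) ^ ((c + 2 * δ) / 2)) := ⟨_, rfl⟩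
  have hK10 : 0 ≤ K1 := by rw [hK1]; positivity
  have hK20 : 0 ≤ K2 := by rw [hK2]; positivity
  have hcoll : ∀ q y : ℕ, 1 ≤ q → q ≤ N → 1 ≤ y → (2 ^ E * y) ^ 4 ≤ q →
      (coll ((Rset S y N).filter (fun a => IsCoprime a (q : ℤ)))
        (fun a => (a : ZMod q)) : ℝ) ≤
        C2 * (N : ℝ) ^ δ * ((y : ℝ) * (N : ℝ) ^ (c + δ)) := by
    intro q y hq hqN hy hb
    refine (h2 y N q hy hN hq hb).trans ?_
    refine mul_le_mul_of_nonneg_right ?_ (by positivity)
    refine mul_le_mul_of_nonneg_left ?_ (by linarith)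
    exact Real.rpow_le_rpow (Nat.cast_nonneg _) (by exact_mod_cast hqN) hδ0.le
  have h8 : (N : ℝ) ^ (c + 2 * δ) = (N : ℝ) ^ δ * (N : ℝ) ^ (c + δ) := by
    rw [← Real.rpow_add hN0]
    congr 1
    ring
  let R : (Fin (n + 2) → ℤ) → ((i : G) → ℤ) := fun a i => a i.1
  let U : Finset ((ℕ × ℕ) × ((i : G) → ℤ)) :=
    (Finset.Icc 1 V ×ˢ Finset.Icc 1 V') ×ˢ Fintype.piFinset (fun i : G => Rset S (Y i.1) N)
  have hstep : (T.card : ℝ) ≤ K2 * K1 * (U.card : ℝ) := by
    apply card_le_real (fun a => ((gd a, gd' a), R a))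
    · intro a ha
      rw [Finset.mem_product, Finset.mem_product, Finset.mem_Icc, Finset.mem_Icc,
        Fintype.mem_piFinset]
      exact ⟨⟨⟨hd1 a ha, hdV a ha⟩, ⟨hd1' a ha, hdV' a ha⟩⟩, fun i => (hT a ha).1 i.1⟩
    · rintro ⟨⟨d, d'⟩, u⟩ _
      rcases (T.filter (fun a => ((gd a, gd' a), R a) = ((d, d'), u))).eq_empty_or_nonempty
        with h0 | ⟨a1, ha1⟩
      · rw [h0, Finset.card_empty, Nat.cast_zero]
        exact mul_nonneg hK20 hK10
      · have hkey : ∀ a ∈ T.filter (fun a => ((gd a, gd' a), R a) = ((d, d'), u)),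
            a ∈ T ∧ gd a = d ∧ gd' a = d' ∧ R a = u := by
          intro a ha
          rw [Finset.mem_filter, Prod.mk.injEq, Prod.mk.injEq] at ha
          exact ⟨ha.1, ha.2.1.1, ha.2.1.2, ha.2.2⟩
        obtain ⟨F, hF⟩ : ∃ F : Finset (Fin (n + 2) → ℤ),
          F = T.filter (fun a => ((gd a, gd' a), R a) = ((d, d'), u)) := ⟨_, rfl⟩
        rw [← hF] at hkey ha1 ⊢
        obtain ⟨hT1, e1, e1', e2⟩ := hkey a1 ha1
        have g1 : 1 ≤ d := by rw [← e1]; exact hd1 a1 hT1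
        have g2 : d ^ LB ≤ N := by rw [← e1]; exact hdN a1 hT1
        have g3 : (2 ^ E * Y z) ^ 4 ≤ d ^ LB := by rw [← e1]; exact hbz a1 hT1
        have g4 : (2 ^ E * Y j) ^ 4 ≤ d ^ LB := by rw [← e1]; exact hbj a1 hT1
        have g5 : 1 ≤ d' := by rw [← e1']; exact hd1' a1 hT1
        have g6 : d' ^ LA ≤ N := by rw [← e1']; exact hdN' a1 hT1
        have g7 : (2 ^ E * Y w) ^ 4 ≤ d' ^ LA := by rw [← e1']; exact hbw a1 hT1
        have hq1 : 1 ≤ d ^ LB := Nat.one_le_pow _ _ g1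
        have hq2 : 1 ≤ d' ^ LA := Nat.one_le_pow _ _ g5
        have hneq : NeZero (d ^ LB) := ⟨by omega⟩
        obtain ⟨A, hA⟩ : ∃ A : Finset ℤ,
          A = (Rset S (Y z) N).filter (fun a => IsCoprime a ((d ^ LB : ℕ) : ℤ)) := ⟨_, rfl⟩
        obtain ⟨B, hB⟩ : ∃ B : Finset ℤ,
          B = (Rset S (Y j) N).filter (fun a => IsCoprime a ((d ^ LB : ℕ) : ℤ)) := ⟨_, rfl⟩
        obtain ⟨D, hD⟩ : ∃ D : Finset ℤ,
          D = (Rset S (Y w) N).filter (fun a => IsCoprime a ((d' ^ LA : ℕ) : ℤ)) := ⟨_, rfl⟩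
        have hle : (F.card : ℝ) ≤
            K2 * (((A ×ˢ B).filter (fun p => ((d ^ LB : ℕ) : ℤ) ∣ p.1 + p.2 - 0)).card : ℝ) := by
          apply card_le_real (fun a => (a z, a j))
          · intro a ha
            obtain ⟨hTa, f1, f1', f2⟩ := hkey a ha
            have k1 := hcz a hTa
            have k2 := hcj a hTa
            have k3 := hdiv a hTa
            rw [f1] at k1 k2 k3
            rw [Finset.mem_filter, Finset.mem_product, hA, hB, Finset.mem_filter,
              Finset.mem_filter]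
            refine ⟨⟨⟨(hT a hTa).1 z, ?_⟩, ⟨(hT a hTa).1 j, ?_⟩⟩, ?_⟩
            · push_cast
              exact k1.pow_right
            · push_cast
              exact k2.pow_right
            · change _ ∣ a z + a j - 0
              rw [sub_zero]
              exact k3
          · rintro ⟨x, y⟩ _
            have hfib : (F.filter (fun a => (a z, a j) = (x, y))).card ≤
                (D.filter (fun b : ℤ => (b : ZMod (d' ^ LA)) =
                  ((-x : ℤ) : ZMod (d' ^ LA)))).card := by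
              refine Finset.card_le_card_of_injOn (fun a => a w) ?_ ?_
              · intro a ha
                rw [Finset.mem_coe, Finset.mem_filter, Prod.mk.injEq] at ha
                obtain ⟨haF, hax, -⟩ := ha
                obtain ⟨hTa, f1, f1', f2⟩ := hkey a haF
                have k1 := hcw a hTa
                have k3 := hdiv' a hTa
                rw [f1'] at k1 k3
                rw [Finset.mem_coe, Finset.mem_filter, hD, Finset.mem_filter]
                refine ⟨⟨(hT a hTa).1 w, ?_⟩, ?_⟩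
                · push_cast
                  exact k1.pow_right
                · rw [← sub_eq_zero, ← Int.cast_sub, ZMod.intCast_zmod_eq_zero_iff_dvd]
                  have e5 : a w - -x = a z + a w := by rw [hax]; ring
                  rw [e5]
                  exact k3
              · intro a ha b hb hab
                rw [Finset.mem_coe, Finset.mem_filter, Prod.mk.injEq] at ha hb
                obtain ⟨haF, hax, hay⟩ := ha
                obtain ⟨hbF, hbx, hby⟩ := hb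
                have hRR : R a = R b := by rw [(hkey a haF).2.2.2, (hkey b hbF).2.2.2]
                have i1 : a z = b z := by rw [hax, hbx]
                have i2 : a j = b j := by rw [hay, hby]
                have i3 : a w = b w := hab
                have i4 : a m = b m := by
                  have s1 := (hT a (hkey a haF).1).2.1
                  have s2 := (hT b (hkey b hbF).1).2.1
                  rw [hsplit] at s1 s2
                  have s3 : ∑ i ∈ G, a i = ∑ i ∈ G, b i :=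
                    Finset.sum_congr rfl fun i hi => congrFun hRR ⟨i, hi⟩
                  rw [s3, i1, i2, i3] at s1
                  linarith
                funext i
                by_cases q1 : i = z
                · rw [q1]; exact i1
                · by_cases q2 : i = j
                  · rw [q2]; exact i2
                  · by_cases q3 : i = w
                    · rw [q3]; exact i3
                    · by_cases q4 : i = m
                      · rw [q4]; exact i4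
                      · exact congrFun hRR ⟨i, hmemG i q1 q2 q3 q4⟩
            have h6 : ((F.filter (fun a => (a z, a j) = (x, y))).card : ℝ) ≤
                ((D.filter (fun b : ℤ => (b : ZMod (d' ^ LA)) =
                  ((-x : ℤ) : ZMod (d' ^ LA)))).card : ℝ) := by exact_mod_cast hfib
            refine h6.trans ?_
            refine (sq_le_sq₀ (Nat.cast_nonneg _) hK20).1 ?_
            refine (linf (d' ^ LA) D _).trans ?_
            have h7 := hcoll (d' ^ LA) (Y w) hq2 g6 (hY w) g7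
            rw [← hD] at h7
            refine h7.trans ?_
            have h9 : Real.sqrt (Y w : ℝ) ^ 2 = (Y w : ℝ) := Real.sq_sqrt (Nat.cast_nonneg _)
            have h10 : ((N : ℝ) ^ ((c + 2 * δ) / 2)) ^ 2 = (N : ℝ) ^ δ * (N : ℝ) ^ (c + δ) := by
              rw [← h8, ← Real.rpow_natCast, ← Real.rpow_mul hN0.le]
              congr 1
              push_cast
              ring
            rw [hK2, mul_pow, mul_pow, h9, h10]
            have h11 : (0 : ℝ) ≤ (Y w : ℝ) * ((N : ℝ) ^ δ * (N : ℝ) ^ (c + δ)) := by positivity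
            have h12 : C2 ≤ C2 ^ 2 := by nlinarith
            calc C2 * (N : ℝ) ^ δ * ((Y w : ℝ) * (N : ℝ) ^ (c + δ)) =
                  C2 * ((Y w : ℝ) * ((N : ℝ) ^ δ * (N : ℝ) ^ (c + δ))) := by ring
              _ ≤ C2 ^ 2 * ((Y w : ℝ) * ((N : ℝ) ^ δ * (N : ℝ) ^ (c + δ))) :=
                mul_le_mul_of_nonneg_right h12 h11
        have hpair : (((A ×ˢ B).filter (fun p => ((d ^ LB : ℕ) : ℤ) ∣ p.1 + p.2 - 0)).card : ℝ) ≤
            K1 := by
          have h4 := hcoll (d ^ LB) (Y z) hq1 g2 (hY z) g3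
          have h5 := hcoll (d ^ LB) (Y j) hq1 g2 (hY j) g4
          rw [← hA] at h4
          rw [← hB] at h5
          refine (sq_le_sq₀ (Nat.cast_nonneg _) hK10).1 ?_
          refine (pair_mod2 (d ^ LB) A B 0).trans ?_
          have h7 : K1 ^ 2 = (C2 * (N : ℝ) ^ δ * ((Y z : ℝ) * (N : ℝ) ^ (c + δ))) *
              (C2 * (N : ℝ) ^ δ * ((Y j : ℝ) * (N : ℝ) ^ (c + δ))) := by
            have h9 : Real.sqrt ((Y z : ℝ) * Y j) ^ 2 = (Y z : ℝ) * Y j :=
              Real.sq_sqrt (by positivity)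
            rw [hK1, h8, mul_pow, mul_pow, h9]
            ring
          rw [h7]
          exact mul_le_mul h4 h5 (Nat.cast_nonneg _) (by positivity)
        exact hle.trans (mul_le_mul_of_nonneg_left hpair hK20)
  have hUc : (U.card : ℝ) ≤ ((V : ℝ) * V') * (C1 ^ (n - 2) * ((∏ i ∈ G, (Y i : ℝ)) *
      (N : ℝ) ^ (δ * ((n - 2 : ℕ) : ℝ)))) := by
    have e1 : U.card = (V * V') * ∏ i : G, (Rset S (Y i.1) N).card := by
      change ((Finset.Icc 1 V ×ˢ Finset.Icc 1 V') ×ˢ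
        Fintype.piFinset (fun i : G => Rset S (Y i.1) N)).card = _
      rw [Finset.card_product, Finset.card_product, Nat.card_Icc, Nat.card_Icc,
        Nat.add_sub_cancel, Nat.add_sub_cancel, Fintype.card_piFinset]
    rw [e1]
    push_cast
    refine mul_le_mul_of_nonneg_left ?_ (mul_nonneg (Nat.cast_nonneg _) (Nat.cast_nonneg _))
    have e2 : ∏ i : G, ((Rset S (Y i.1) N).card : ℝ) ≤
        ∏ i : G, (C1 * ((Y i.1 : ℝ) * (N : ℝ) ^ δ)) :=
      Finset.prod_le_prod (fun i _ => Nat.cast_nonneg _) fun i _ => h1 (Y i.1) N (hY i.1) hN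
    refine e2.trans (le_of_eq ?_)
    rw [Finset.prod_coe_sort G (fun i => C1 * ((Y i : ℝ) * (N : ℝ) ^ δ)), Finset.prod_mul_distrib,
      Finset.prod_mul_distrib, Finset.prod_const, Finset.prod_const, hGc, ← Real.rpow_natCast
        ((N : ℝ) ^ δ), ← Real.rpow_mul hN0.le]
  have hexp : (N : ℝ) ^ ((c + 2 * δ) / 2) * (N : ℝ) ^ (c + 2 * δ) *
      (N : ℝ) ^ (δ * ((n - 2 : ℕ) : ℝ)) ≤ (N : ℝ) ^ (3 / 2 * c + ε) := by
    rw [← Real.rpow_add hN0, ← Real.rpow_add hN0]
    refine Real.rpow_le_rpow_of_exponent_le hN1 ?_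
    have h3 : ((n : ℝ) + 4) * δ = ε := by
      rw [hδ]
      field_simp
    have h4 : ((n - 2 : ℕ) : ℝ) = (n : ℝ) - 2 := by
      rw [Nat.cast_sub hn]
      norm_num
    rw [h4]
    nlinarith
  have hP0 : (0 : ℝ) ≤ ∏ i ∈ G, (Y i : ℝ) := Finset.prod_nonneg fun i _ => Nat.cast_nonneg _
  have hC1p : (0 : ℝ) ≤ C1 ^ (n - 2) := by positivity
  calc (T.card : ℝ) ≤ K2 * K1 * (U.card : ℝ) := hstep
    _ ≤ K2 * K1 * (((V : ℝ) * V') * (C1 ^ (n - 2) * ((∏ i ∈ G, (Y i : ℝ)) *
      (N : ℝ) ^ (δ * ((n - 2 : ℕ) : ℝ))))) :=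
        mul_le_mul_of_nonneg_left hUc (mul_nonneg hK20 hK10)
    _ = C1 ^ (n - 2) * (C2 * C2) * ((V : ℝ) * V') * (((∏ i ∈ G, (Y i : ℝ)) *
        (Real.sqrt ((Y z : ℝ) * Y j) * Real.sqrt (Y w : ℝ))) *
          ((N : ℝ) ^ ((c + 2 * δ) / 2) * (N : ℝ) ^ (c + 2 * δ) *
            (N : ℝ) ^ (δ * ((n - 2 : ℕ) : ℝ)))) := by
        rw [hK1, hK2]
        ring
    _ ≤ _ := by gcongr

end Pool.Agent.Helper97.TX
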