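import Pool.Agent.Helper97.TX.Reg1H
import Pool.Agent.Helper97.TX.Two
import Pool.Agent.Helper97.TX.CaseH
import Pool.Agent.Helper97.TX.Core

/-!
TX-F6 (MP_464c42_nt). `n + 2` integers with sum zero, the bound without `Y m`, `√(Y j Y l)` for distinct `m, j, l ≠ z`. (helper97)

Let `t ≠ z` have maximal `Y t`. (1) `radM (a t)` small at level B: `pickT`, `coreNS`. (2) Otherwise `caseH` gives `U`; two indices `≠ z` in `U`: `reg1H`.
(3) `U = {z, h}`: `radM (a h)` small at level A: `corePL`. (4) Otherwise `caseH` gives `U'`; two indices `≠ z` in `U'`: `reg1H`.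
(5) `U' = {z, h'}`: `two`.
-/

set_option autoImplicit false

open Pool.Agent.Helper87.Camp Pool.Agent.Helper10 Pool.Agent.Helper91.CPX

namespace Pool.Agent.Helper97.TX

open Pool.Agent.Helper24.TU Pool.Agent.Helper24.TV Pool.Agent.Helper87.RP

private lemma trivX (n N N1 : ℕ) (hN : N ≤ N1) (T : Finset (Fin (n + 2) → ℤ))
    (hT : ∀ a ∈ T, ∀ i, (a i).natAbs ≤ N) : (T.card : ℝ) ≤ (2 * (N1 : ℝ) + 1) ^ (n + 2) := by
  classical
  have hsub : T ⊆ Fintype.piFinset fun _ : Fin (n + 2) => Finset.Icc (-(N1 : ℤ)) N1 := by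
    intro a ha
    rw [Fintype.mem_piFinset]
    intro i
    have := hT a ha i
    rw [Finset.mem_Icc]
    omega
  have h1 := Finset.card_le_card hsub
  rw [Fintype.card_piFinset, Finset.prod_const, Finset.card_univ, Fintype.card_fin,
    Int.card_Icc] at h1
  have h2 : ((N1 : ℤ) + 1 - -(N1 : ℤ)).toNat = 2 * N1 + 1 := by omega
  rw [h2] at h1
  exact_mod_cast h1

private lemma largeX (c : ℝ) (hc : 0 < c) (K : ℝ) :
    ∃ N1 : ℕ, 1 ≤ N1 ∧ ∀ N : ℕ, N1 ≤ N → K ≤ (N : ℝ) ^ c := by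
  have h := (tendsto_rpow_atTop hc).comp tendsto_natCast_atTop_atTop
  obtain ⟨N1, hN1⟩ := Filter.eventually_atTop.1 (h.eventually_ge_atTop K)
  exact ⟨max N1 1, le_max_right _ _, fun N hN => hN1 N (le_trans (le_max_left _ _) hN)⟩

private lemma ceilX (x : ℝ) (hx : 1 ≤ x) :
    x ≤ (⌈x⌉₊ : ℝ) ∧ (⌈x⌉₊ : ℝ) ≤ 2 * x ∧ 1 ≤ ⌈x⌉₊ := by
  refine ⟨Nat.le_ceil _, ?_, Nat.one_le_ceil_iff.2 (by linarith)⟩
  have := Nat.ceil_lt_add_one (show 0 ≤ x by linarith)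
  linarith

/-- A finite cover. -/
theorem cover {α ι : Type} [Fintype ι] (T : Finset α) (Pr : ι → α → Prop) (K : ℝ)
    (h1 : ∀ a ∈ T, ∃ i, Pr i a)
    (h2 : ∀ i, ∀ T' : Finset α, T' ⊆ T → (∀ a ∈ T', Pr i a) → (T'.card : ℝ) ≤ K) :
    (T.card : ℝ) ≤ K * Fintype.card ι := by
  classical
  have hsub : T ⊆ (Finset.univ : Finset ι).biUnion (fun i => T.filter (fun a => Pr i a)) := by
    intro a ha
    obtain ⟨i, hi⟩ := h1 a ha
    rw [Finset.mem_biUnion]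
    exact ⟨i, Finset.mem_univ _, Finset.mem_filter.2 ⟨ha, hi⟩⟩
  have h3 : (T.card : ℝ) ≤ ∑ i : ι, ((T.filter (fun a => Pr i a)).card : ℝ) := by
    have := (Finset.card_le_card hsub).trans Finset.card_biUnion_le
    exact_mod_cast this
  calc (T.card : ℝ) ≤ ∑ i : ι, ((T.filter (fun a => Pr i a)).card : ℝ) := h3
    _ ≤ ∑ _i : ι, K := Finset.sum_le_sum fun i _ =>
        h2 i _ (Finset.filter_subset _ _) fun a ha => (Finset.mem_filter.1 ha).2
    _ = K * Fintype.card ι := by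
        rw [Finset.sum_const, Finset.card_univ, nsmul_eq_mul, mul_comm]

/-- A set of at least two indices without two indices `≠ z` is `{z, h}`. -/
theorem two_set {n : ℕ} (U : Finset (Fin (n + 2))) (z : Fin (n + 2)) (hU : 2 ≤ U.card)
    (hno : ¬ ∃ j l, j ∈ U ∧ l ∈ U ∧ j ≠ l ∧ j ≠ z ∧ l ≠ z) :
    ∃ h ∈ U, h ≠ z ∧ ∀ i ∈ U, i = z ∨ i = h := by
  classical
  obtain ⟨j, hj, l, hl, hjl⟩ := Finset.one_lt_card.1 (show 1 < U.card by omega)
  have key : ∀ h ∈ U, h ≠ z → ∀ i ∈ U, i = z ∨ i = h := by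
    intro h hh hz i hi
    by_contra hcon
    push Not at hcon
    exact hno ⟨i, h, hi, hh, hcon.2, hcon.1, hz⟩
  by_cases h1 : j = z
  · have h2 : l ≠ z := fun h => hjl (h1.trans h.symm)
    exact ⟨l, hl, h2, key l hl h2⟩
  · exact ⟨j, hj, h1, key j hj h1⟩

/-- A power of a squarefree number. -/
theorem sq_pow_dvd (d L : ℕ) (hd : Squarefree d) (x : ℤ)
    (h : ∀ p ∈ d.primeFactors, (p : ℤ) ^ L ∣ x) : ((d ^ L : ℕ) : ℤ) ∣ x := by
  have h1 : d ^ L = ∏ p ∈ d.primeFactors, p ^ L := by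
    rw [Finset.prod_pow, Nat.prod_primeFactors_of_squarefree hd]
  rw [h1, Int.natCast_dvd]
  apply Finset.prod_dvd_of_isRelPrime
  · intro p hp q hq hpq
    have hp' := Nat.prime_of_mem_primeFactors (Finset.mem_coe.1 hp)
    have hq' := Nat.prime_of_mem_primeFactors (Finset.mem_coe.1 hq)
    exact (Nat.coprime_iff_isRelPrime.1
      (((Nat.coprime_primes hp' hq').2 hpq).pow L L))
  · intro p hp
    apply Int.natCast_dvd.1
    have := h p hp
    exact_mod_cast this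

/-- The two terms outside the divisible ones. -/
theorem pair_dvd {n : ℕ} (d L : ℕ) (hL : 1 ≤ L) (hd1 : 1 ≤ d) (hd : Squarefree d)
    (a : Fin (n + 2) → ℤ) (hs : ∑ i, a i = 0) (U : Finset (Fin (n + 2))) (z h : Fin (n + 2))
    (hzh : z ≠ h) (hU : ∀ i ∈ U, i = z ∨ i = h)
    (hout : ∀ i, i ∉ U → ∀ p ∈ d.primeFactors, (p : ℤ) ^ L ∣ a i)
    (hfew : ∀ p ∈ d.primeFactors, ∃ i j, i ≠ j ∧ ¬ (p : ℤ) ∣ a i ∧ ¬ (p : ℤ) ∣ a j) :
    ((d ^ L : ℕ) : ℤ) ∣ a z + a h ∧ IsCoprime (a z) (d : ℤ) ∧ IsCoprime (a h) (d : ℤ) := by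
  classical
  have hnd : ∀ p ∈ d.primeFactors, ¬ (p : ℤ) ∣ a z ∧ ¬ (p : ℤ) ∣ a h := by
    intro p hp
    obtain ⟨i, j, hij, hi, hj⟩ := hfew p hp
    have hin : ∀ i, ¬ (p : ℤ) ∣ a i → i = z ∨ i = h := by
      intro i hi
      apply hU
      by_contra hc
      exact hi ((dvd_pow_self (p : ℤ) (by omega)).trans (hout i hc p hp))
    rcases hin i hi with h1 | h1 <;> rcases hin j hj with h2 | h2
    · exact absurd (h1.trans h2.symm) hij
    · rw [h1] at hi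
      rw [h2] at hj
      exact ⟨hi, hj⟩
    · rw [h1] at hi
      rw [h2] at hj
      exact ⟨hj, hi⟩
    · exact absurd (h1.trans h2.symm) hij
  refine ⟨?_, Pool.Agent.Helper93.RS.cop_of' _ _ (by omega) fun p hp => (hnd p hp).1,
    Pool.Agent.Helper93.RS.cop_of' _ _ (by omega) fun p hp => (hnd p hp).2⟩
  have h1 : a z + a h = - ∑ i ∈ (Finset.univ.erase z).erase h, a i := by
    rw [← Finset.add_sum_erase Finset.univ a (Finset.mem_univ z),
      ← Finset.add_sum_erase (Finset.univ.erase z) a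
        (Finset.mem_erase.2 ⟨hzh.symm, Finset.mem_univ h⟩)] at hs
    linarith
  rw [h1]
  apply (dvd_neg).2
  apply Finset.dvd_sum
  intro i hi
  rw [Finset.mem_erase, Finset.mem_erase] at hi
  apply sq_pow_dvd d L hd
  apply hout
  intro hc
  rcases hU i hc with h2 | h2
  · exact hi.2.1 h2
  · exact hi.1 h2

theorem apH (n : ℕ) (hn : 2 ≤ n) (ε : ℝ) (hε : 0 < ε) :
    ∃ lam0 : ℝ, 0 < lam0 ∧ ∀ lam : ℝ, 0 < lam → lam ≤ lam0 → ∀ (S : Finset ℕ) (G : ℕ),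
      ∃ C : ℝ, 1 ≤ C ∧ ∀ (N : ℕ) (Y : Fin (n + 2) → ℕ), 1 ≤ N →
      (∀ i, 1 ≤ Y i ∧ (Y i : ℝ) ≤ (N : ℝ) ^ lam) → ∀ (z : Fin (n + 2)) (Q : ℝ),
      (∀ m j l : Fin (n + 2), m ≠ z → j ≠ z → l ≠ z → m ≠ j → m ≠ l → j ≠ l →
        (∏ h ∈ ((Finset.univ.erase m).erase j).erase l, (Y h : ℝ)) *
          Real.sqrt ((Y j : ℝ) * Y l) ≤ Q) →
      ∀ T : Finset (Fin (n + 2) → ℤ), (∀ a ∈ T, ValH S G N Y a) →
      (T.card : ℝ) ≤ C * (Q * (N : ℝ) ^ (ε * lam)) := by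
  classical
  obtain ⟨P, hP⟩ : ∃ P : ℕ, P = Fintype.card (Finset (Fin (n + 2))) := ⟨_, rfl⟩
  have hP1 : 1 ≤ P := by rw [hP]; exact Fintype.card_pos
  obtain ⟨κ, hκ0, hκε, hκ1⟩ : ∃ κ : ℝ, 0 < κ ∧ κ ≤ ε / 64 ∧ κ ≤ 1 / 64 :=
    ⟨min (ε / 64) (1 / 64), lt_min (by linarith) (by norm_num), min_le_left _ _, min_le_right _ _⟩
  obtain ⟨M1, hM1, hM1κ⟩ : ∃ M1 : ℕ, 1 ≤ M1 ∧ 5 ≤ κ * M1 := by
    refine ⟨⌈5 / κ⌉₊, Nat.one_le_ceil_iff.2 (by positivity), ?_⟩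
    have h1 := Nat.le_ceil (5 / κ)
    rw [div_le_iff₀ hκ0] at h1
    linarith
  obtain ⟨LA, hLA⟩ : ∃ LA : ℕ, LA = P * M1 := ⟨_, rfl⟩
  have hLA1 : 1 ≤ LA := by rw [hLA]; exact Nat.mul_pos hP1 hM1
  obtain ⟨M3, κ2, lamA, hM3, hκ20, hκ2, hlamA, hPL⟩ := corePL n (by omega) ε hε κ (κ / 2) hκ0
    (by linarith) (by linarith) (by linarith) le_rfl (2 * LA) (by omega)
  obtain ⟨M1B, hM1B⟩ : ∃ M1B : ℕ, M1B = M1 + M3 := ⟨_, rfl⟩
  have hM1B1 : 1 ≤ M1B := by omega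
  have hM1Bκ : 5 ≤ 4 * κ * M1B := by
    rw [hM1B]
    push_cast
    have : 0 ≤ κ * (M3 : ℝ) := by positivity
    nlinarith
  obtain ⟨LB, hLB⟩ : ∃ LB : ℕ, LB = P * M1B := ⟨_, rfl⟩
  have hLB1 : 1 ≤ LB := by rw [hLB]; exact Nat.mul_pos hP1 hM1B1
  have hLBM3 : M3 ≤ 2 * LB := by
    have h1 : M1B ≤ LB := by rw [hLB]; exact Nat.le_mul_of_pos_left _ hP1
    omega
  obtain ⟨lamB, hlamB, hNS⟩ := coreNS n (by omega) ε hε (4 * κ) κ2 (by linarith)
    (by linarith) (by linarith) hκ20 (by linarith) (2 * LB) (by omega)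
  refine ⟨min lamA lamB, lt_min hlamA hlamB, fun lam hlam hle S G => ?_⟩
  obtain ⟨E, hE, hEl⟩ : ∃ E : ℕ, 1 ≤ E ∧ 3 / ((E : ℝ) + 1) ≤ ε / 4 * lam := by
    refine ⟨⌈3 / (ε / 4 * lam)⌉₊, Nat.one_le_ceil_iff.2 (by positivity), ?_⟩
    have h1 := Nat.le_ceil (3 / (ε / 4 * lam))
    rw [div_le_iff₀ (by positivity)] at h1
    rw [div_le_iff₀ (by positivity)]
    have h2 := mul_pos (show (0 : ℝ) < ε / 4 by linarith) hlam
    rw [mul_add, mul_one, mul_comm (ε / 4 * lam)]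
    linarith
  obtain ⟨CA, NA, hCA, hA⟩ := hPL lam hlam (hle.trans (min_le_left _ _)) S
  obtain ⟨CB, NB, hCB, hB⟩ := hNS lam hlam (hle.trans (min_le_right _ _)) S G
  obtain ⟨C1, hC1, hR1⟩ := reg1H n E (by omega) hE S (ε / 4 * lam) (by positivity)
  obtain ⟨C2, hC2, hT2⟩ := two n E hn hE S (ε / 4 * lam) (by positivity)
  obtain ⟨Nc, hNc1, hNc⟩ := largeX lam hlam ((2 ^ E) ^ 4)
  obtain ⟨Nd, hNd1, hNd⟩ := largeX (2 * κ * lam) (by positivity) 4
  obtain ⟨N1, hN1A, hN1B, hN1c, hN1d⟩ : ∃ N1 : ℕ, NA ≤ N1 ∧ NB ≤ N1 ∧ Nc ≤ N1 ∧ Nd ≤ N1 :=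
    ⟨max (max NA NB) (max Nc Nd), (le_max_left _ _).trans (le_max_left _ _),
      (le_max_right _ _).trans (le_max_left _ _), (le_max_left _ _).trans (le_max_right _ _),
      (le_max_right _ _).trans (le_max_right _ _)⟩
  obtain ⟨F, hF⟩ : ∃ F : ℝ, F = (Fintype.card (Fin (n + 2) × Fin (n + 2) × Fin (n + 2)) : ℝ) :=
    ⟨_, rfl⟩
  have hF0 : 0 ≤ F := by rw [hF]; exact Nat.cast_nonneg _
  obtain ⟨CC, hCC⟩ : ∃ CC : ℝ, CC = CB + C1 * 4 + C1 * 4 + CA + C2 * 16 := ⟨_, rfl⟩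
  have hCC0 : 0 ≤ CC := by rw [hCC]; linarith
  have htriv0 : (1 : ℝ) ≤ (2 * (N1 : ℝ) + 1) ^ (n + 2) :=
    one_le_pow₀ (by have : (0 : ℝ) ≤ N1 := Nat.cast_nonneg N1; linarith)
  refine ⟨(2 * (N1 : ℝ) + 1) ^ (n + 2) + CC * F, by
    have := mul_nonneg hCC0 hF0
    linarith, ?_⟩
  intro N Y hN hY z Q hQ T hT
  have hNR : (1 : ℝ) ≤ (N : ℝ) := by exact_mod_cast hN
  have hN0 : (0 : ℝ) < (N : ℝ) := by linarith
  have hY1 : ∀ i, 1 ≤ Y i := fun i => (hY i).1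
  have hYR : ∀ i, (1 : ℝ) ≤ Y i := fun i => by exact_mod_cast hY1 i
  have hpow1 : (1 : ℝ) ≤ (N : ℝ) ^ (ε * lam) := Real.one_le_rpow hNR (by positivity)
  -- indices
  have hex : ∀ x y w : Fin (n + 2), ∃ m, m ≠ x ∧ m ≠ y ∧ m ≠ w := by
    intro x y w
    by_contra hcon
    push Not at hcon
    have hsub : (Finset.univ : Finset (Fin (n + 2))) ⊆ {x, y, w} := by
      intro m _
      rw [Finset.mem_insert, Finset.mem_insert, Finset.mem_singleton]
      by_contra hc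
      push Not at hc
      exact hc.2.2 (hcon m hc.1 hc.2.1)
    have h1 := Finset.card_le_card hsub
    rw [Finset.card_univ, Fintype.card_fin] at h1
    have h2 : ({x, y, w} : Finset (Fin (n + 2))).card ≤ 3 := Finset.card_le_three
    omega
  obtain ⟨t, htm, htmax'⟩ := Finset.exists_max_image (Finset.univ.erase z) Y (by
    obtain ⟨m, hm, -, -⟩ := hex z z z
    exact ⟨m, Finset.mem_erase.2 ⟨hm, Finset.mem_univ _⟩⟩)
  have htz : t ≠ z := (Finset.mem_erase.1 htm).1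
  have htmax : ∀ i, i ≠ z → Y i ≤ Y t := fun i hi =>
    htmax' i (Finset.mem_erase.2 ⟨hi, Finset.mem_univ _⟩)
  -- the products
  have hQ2 : ∀ c : Fin (n + 2), c ≠ z → c ≠ t →
      (∏ h ∈ (Finset.univ.erase t).erase c, (Y h : ℝ)) ≤ Q := by
    intro c hcz hct
    obtain ⟨l, hlz, hlt, hlc⟩ := hex z t c
    have h1 := hQ c t l hcz htz hlz hct hlc.symm hlt.symm
    refine le_trans ?_ h1
    have hm : l ∈ (Finset.univ.erase c).erase t :=
      Finset.mem_erase.2 ⟨hlt, Finset.mem_erase.2 ⟨hlc, Finset.mem_univ _⟩⟩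
    rw [Finset.erase_right_comm, ← Finset.prod_erase_mul _ _ hm]
    refine mul_le_mul_of_nonneg_left ?_ (Finset.prod_nonneg fun i _ => Nat.cast_nonneg _)
    apply Real.le_sqrt_of_sq_le
    have h4 : (Y l : ℝ) ≤ Y t := by exact_mod_cast htmax l hlz
    have h5 : (0 : ℝ) ≤ Y l := Nat.cast_nonneg _
    nlinarith
  have hQ1 : 1 ≤ Q := by
    obtain ⟨c, hcz, hct, -⟩ := hex z t t
    refine le_trans ?_ (hQ2 c hcz hct)
    have h3 : 1 ≤ ∏ h ∈ (Finset.univ.erase t).erase c, Y h := Finset.one_le_prod' fun h _ => hY1 h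
    exact_mod_cast h3
  have hQ0 : 0 ≤ Q := by linarith
  have hQN : 0 ≤ Q * (N : ℝ) ^ (ε * lam) := by positivity
  rcases lt_or_ge N N1 with hNN1 | hNN1
  · have h1 := trivX n N N1 hNN1.le T fun a ha i => (mem_Rset.1 ((hT a ha).mem i)).2.1
    have h3 : (1 : ℝ) ≤ Q * (N : ℝ) ^ (ε * lam) := one_le_mul_of_one_le_of_one_le hQ1 hpow1
    have h4 := mul_nonneg hCC0 hF0
    calc (T.card : ℝ) ≤ ((2 * (N1 : ℝ) + 1) ^ (n + 2) + CC * F) * 1 := by linarith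
      _ ≤ _ := mul_le_mul_of_nonneg_left h3 (by linarith)
  -- the numbers
  obtain ⟨DA, hDA⟩ : ∃ DA : ℕ, DA = ⌈(N : ℝ) ^ (κ * lam)⌉₊ := ⟨_, rfl⟩
  obtain ⟨WA, hWA⟩ : ∃ WA : ℕ, WA = ⌈(N : ℝ) ^ (κ / 2 * lam)⌉₊ := ⟨_, rfl⟩
  obtain ⟨DB, hDB⟩ : ∃ DB : ℕ, DB = ⌈(N : ℝ) ^ (4 * κ * lam)⌉₊ := ⟨_, rfl⟩
  obtain ⟨WB, hWB⟩ : ∃ WB : ℕ, WB = ⌈(N : ℝ) ^ (κ2 * lam)⌉₊ := ⟨_, rfl⟩
  obtain ⟨hDAl, hDAu, hDA1⟩ := ceilX _ (Real.one_le_rpow hNR (by positivity : 0 ≤ κ * lam))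
  obtain ⟨hWAl, hWAu, hWA1⟩ := ceilX _ (Real.one_le_rpow hNR (by positivity : 0 ≤ κ / 2 * lam))
  obtain ⟨hDBl, hDBu, hDB1⟩ := ceilX _ (Real.one_le_rpow hNR (by positivity : 0 ≤ 4 * κ * lam))
  obtain ⟨hWBl, hWBu, hWB1⟩ := ceilX _ (Real.one_le_rpow hNR (by positivity : 0 ≤ κ2 * lam))
  have hA' := hA N (by omega) hN Y hY
  obtain ⟨Lm, hLm1, hsize, hB'⟩ := hB N (by omega) hN
  have hB'' := hB' Y hY
  rw [← hDA, ← hWA, ← hWB] at hA'
  rw [← hDB, ← hWB] at hB''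
  rw [← hDA] at hDAl hDAu hDA1
  rw [← hWA] at hWAl hWAu hWA1
  rw [← hDB] at hDBl hDBu hDB1
  rw [← hWB] at hWBl hWBu hWB1
  have hDD : DA * DA ≤ DB := by
    have h1 := hNd N (by omega)
    have h2 : ((DA : ℝ)) * DA ≤ DB := by
      calc (DA : ℝ) * DA ≤ (2 * (N : ℝ) ^ (κ * lam)) * (2 * (N : ℝ) ^ (κ * lam)) :=
            mul_le_mul hDAu hDAu (Nat.cast_nonneg _) (by positivity)
        _ = 4 * ((N : ℝ) ^ (κ * lam) * (N : ℝ) ^ (κ * lam)) := by ring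
        _ ≤ (N : ℝ) ^ (2 * κ * lam) * ((N : ℝ) ^ (κ * lam) * (N : ℝ) ^ (κ * lam)) :=
            mul_le_mul_of_nonneg_right h1 (by positivity)
        _ = (N : ℝ) ^ (4 * κ * lam) := by
            rw [← Real.rpow_add hN0, ← Real.rpow_add hN0]
            congr 1
            ring
        _ ≤ DB := hDBl
    exact_mod_cast h2
  -- large moduli
  have hbig : ∀ (c : ℝ) (D M : ℕ), 5 ≤ c * M → (N : ℝ) ^ (c * lam) ≤ (D : ℝ) →
      ∀ i, (2 ^ E * Y i) ^ 4 ≤ D ^ M := by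
    intro c D M hcM hD i
    have h1 := hNc N (by omega)
    have h2 : ((2 ^ E * (Y i : ℝ)) ^ 4) ≤ (D : ℝ) ^ M := by
      calc (2 ^ E * (Y i : ℝ)) ^ 4 ≤ (2 ^ E * (N : ℝ) ^ lam) ^ 4 := by
            apply pow_le_pow_left₀ (by positivity)
            exact mul_le_mul_of_nonneg_left (hY i).2 (by positivity)
        _ = (2 ^ E) ^ 4 * ((N : ℝ) ^ lam) ^ 4 := by rw [mul_pow]
        _ ≤ (N : ℝ) ^ lam * ((N : ℝ) ^ lam) ^ 4 := mul_le_mul_of_nonneg_right h1 (by positivity)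
        _ = (N : ℝ) ^ (lam * 5) := by
            rw [Real.rpow_mul hN0.le]
            have : ((N : ℝ) ^ lam) ^ (5 : ℝ) = ((N : ℝ) ^ lam) ^ (5 : ℕ) := by
              rw [← Real.rpow_natCast]
              norm_num
            rw [this]
            ring
        _ ≤ (N : ℝ) ^ (c * lam * (M : ℝ)) := by
            apply Real.rpow_le_rpow_of_exponent_le hNR
            nlinarith [mul_le_mul_of_nonneg_right hcM hlam.le]
        _ = ((N : ℝ) ^ (c * lam)) ^ M := by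
            rw [Real.rpow_mul hN0.le (c * lam) (M : ℝ), Real.rpow_natCast]
        _ ≤ (D : ℝ) ^ M := pow_le_pow_left₀ (by positivity) hD _
    exact_mod_cast h2
  have hbigA := hbig κ DA M1 hM1κ hDAl
  have hbigB := hbig (4 * κ) DB M1B hM1Bκ hDBl
  -- the numbers `V`
  have hVA : ((DA * WA : ℕ) : ℝ) ≤ 4 * (N : ℝ) ^ (2 * κ * lam) := by
    push_cast
    calc (DA : ℝ) * WA ≤ (2 * (N : ℝ) ^ (κ * lam)) * (2 * (N : ℝ) ^ (κ / 2 * lam)) :=
          mul_le_mul hDAu hWAu (Nat.cast_nonneg _) (by positivity)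
      _ = 4 * ((N : ℝ) ^ (κ * lam) * (N : ℝ) ^ (κ / 2 * lam)) := by ring
      _ ≤ 4 * (N : ℝ) ^ (2 * κ * lam) := by
          rw [← Real.rpow_add hN0]
          refine mul_le_mul_of_nonneg_left ?_ (by norm_num)
          apply Real.rpow_le_rpow_of_exponent_le hNR
          nlinarith [mul_pos hκ0 hlam]
  have hVB : ((DB * WB : ℕ) : ℝ) ≤ 4 * (N : ℝ) ^ (5 * κ * lam) := by
    push_cast
    calc (DB : ℝ) * WB ≤ (2 * (N : ℝ) ^ (4 * κ * lam)) * (2 * (N : ℝ) ^ (κ2 * lam)) :=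
          mul_le_mul hDBu hWBu (Nat.cast_nonneg _) (by positivity)
      _ = 4 * ((N : ℝ) ^ (4 * κ * lam) * (N : ℝ) ^ (κ2 * lam)) := by ring
      _ ≤ 4 * (N : ℝ) ^ (5 * κ * lam) := by
          rw [← Real.rpow_add hN0]
          refine mul_le_mul_of_nonneg_left ?_ (by norm_num)
          apply Real.rpow_le_rpow_of_exponent_le hNR
          nlinarith [mul_pos hκ0 hlam, mul_le_mul_of_nonneg_right hκ2 hlam.le]
  have hκlam : κ * lam ≤ ε / 64 * lam := mul_le_mul_of_nonneg_right hκε hlam.le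
  -- the five classes
  obtain ⟨I, hI⟩ : ∃ I : Type, I = (Fin (n + 2) × Fin (n + 2) × Fin (n + 2)) := ⟨_, rfl⟩
  obtain ⟨R1, hR1d⟩ : ∃ R1 : ℕ → ℕ → Fin (n + 2) → Fin (n + 2) → Fin (n + 2) →
      (Fin (n + 2) → ℤ) → Prop, R1 = fun L V t' j l a => t' ≠ z ∧ j ≠ z ∧ l ≠ z ∧ t' ≠ j ∧
        t' ≠ l ∧ j ≠ l ∧ ∃ d : ℕ, 1 ≤ d ∧ d ≤ V ∧ ((d ^ (2 * L) : ℕ) : ℤ) ∣ a t' ∧
          (∀ p ∈ d.primeFactors, ¬ (p : ℤ) ^ L ∣ a j) ∧
          (∀ p ∈ d.primeFactors, ¬ (p : ℤ) ^ L ∣ a l) ∧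
          (2 ^ E * Y j) ^ 4 ≤ d ^ L ∧ (2 ^ E * Y l) ^ 4 ≤ d ^ L := ⟨_, rfl⟩
  obtain ⟨Pr, hPr⟩ : ∃ Pr : Fin 5 → Fin (n + 2) × Fin (n + 2) × Fin (n + 2) →
      (Fin (n + 2) → ℤ) → Prop, Pr = fun k x a =>
      (k = 0 → x.1 ≠ z ∧ x.1 ≠ t ∧ radM S (2 * LB) WB (a t) ≤ DB ∧
        NoSmallRatio (a t) (a t + a x.1) Lm) ∧
      (k = 1 → R1 LB (DB * WB) x.1 x.2.1 x.2.2 a) ∧
      (k = 2 → R1 LA (DA * WA) x.1 x.2.1 x.2.2 a) ∧
      (k = 3 → x.1 ≠ z ∧ x.1 ≠ t ∧ radM S (2 * LA) WA (a x.1) ≤ DA ∧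
        DA * DA < radM S M3 WB (a t)) ∧
      (k = 4 → z ≠ x.1 ∧ z ≠ x.2.1 ∧ x.1 ≠ x.2.1 ∧ x.2.2 ≠ z ∧ x.2.2 ≠ x.1 ∧ x.2.2 ≠ x.2.1 ∧
        (∃ d : ℕ, 1 ≤ d ∧ d ≤ DB * WB ∧ d ^ LB ≤ N ∧ ((d ^ LB : ℕ) : ℤ) ∣ a z + a x.1 ∧
          IsCoprime (a z) (d : ℤ) ∧ IsCoprime (a x.1) (d : ℤ) ∧
          (2 ^ E * Y z) ^ 4 ≤ d ^ LB ∧ (2 ^ E * Y x.1) ^ 4 ≤ d ^ LB) ∧
        (∃ d : ℕ, 1 ≤ d ∧ d ≤ DA * WA ∧ d ^ LA ≤ N ∧ ((d ^ LA : ℕ) : ℤ) ∣ a z + a x.2.1 ∧
          IsCoprime (a x.2.1) (d : ℤ) ∧ (2 ^ E * Y x.2.1) ^ 4 ≤ d ^ LA)) := ⟨_, rfl⟩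
  have hclass : ∀ a ∈ T, ∃ k x, Pr k x a := by
    intro a ha
    have hv := hT a ha
    by_cases hnice : radM S (2 * LB) WB (a t) ≤ DB
    · -- class 0
      obtain ⟨b, b', g1, g2, g3, g4, g5⟩ := pickT (by omega : 1 ≤ n) a
        (fun i => (mem_Rset.1 (hv.mem i)).1) hv.sum (G : ℤ) Lm (N : ℤ) (Int.natCast_nonneg G)
        hLm1 hv.gcd hv.big hsize t
      by_cases hbz : b = z
      · have hb' : b' ≠ z := fun h => g3 (hbz.trans h.symm)
        refine ⟨0, (b', b', b'), ?_⟩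
        rw [hPr]
        exact ⟨fun _ => ⟨hb', g2.symm, hnice, g5⟩, fun h => absurd h (by decide),
          fun h => absurd h (by decide), fun h => absurd h (by decide),
          fun h => absurd h (by decide)⟩
      · refine ⟨0, (b, b, b), ?_⟩
        rw [hPr]
        exact ⟨fun _ => ⟨hbz, g1.symm, hnice, g4⟩, fun h => absurd h (by decide),
          fun h => absurd h (by decide), fun h => absurd h (by decide),
          fun h => absurd h (by decide)⟩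
    · push Not at hnice
      obtain ⟨U, htU, hU2, d, hsq, hd1, hdV, hdt, hin, hout, hfew, hpw⟩ :=
        caseH S M1B WB DB P LB hP hM1B1 hLB a t hWB1 hDB1 hv.few hnice
      have hbigd : ∀ i, (2 ^ E * Y i) ^ 4 ≤ d ^ LB := fun i => (hbigB i).trans hpw
      by_cases hjl : ∃ j l, j ∈ U ∧ l ∈ U ∧ j ≠ l ∧ j ≠ z ∧ l ≠ z
      · -- class 1
        obtain ⟨j, l, hj, hl, hjl, hjz, hlz⟩ := hjl
        refine ⟨1, (t, j, l), ?_⟩
        rw [hPr]
        refine ⟨fun h => absurd h (by decide), fun _ => ?_,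
          fun h => absurd h (by decide), fun h => absurd h (by decide),
          fun h => absurd h (by decide)⟩
        have htj : t ≠ j := fun h => htU (h ▸ hj)
        have htl : t ≠ l := fun h => htU (h ▸ hl)
        rw [hR1d]
        exact ⟨htz, hjz, hlz, htj, htl, hjl, d, hd1, hdV, hdt,
          hin j hj, hin l hl, hbigd j, hbigd l⟩
      · obtain ⟨h, hhU, hhz, hUh⟩ := two_set U z hU2 hjl
        have hht : h ≠ t := fun h' => htU (h' ▸ hhU)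
        obtain ⟨q1, q2, q3⟩ := pair_dvd d LB hLB1 hd1 hsq a hv.sum U z h hhz.symm hUh hout hfew
        have hdN : d ^ LB ≤ N := by
          have h3 := hdt
          rw [Int.natCast_dvd] at h3
          have h4 := mem_Rset.1 (hv.mem t)
          exact (Nat.pow_le_pow_right hd1 (by omega)).trans
            ((Nat.le_of_dvd (Int.natAbs_pos.2 h4.1) h3).trans h4.2.1)
        by_cases hniceA : radM S (2 * LA) WA (a h) ≤ DA
        · -- class 3
          refine ⟨3, (h, h, h), ?_⟩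
          rw [hPr]
          refine ⟨fun h => absurd h (by decide), fun h => absurd h (by decide),
            fun h => absurd h (by decide), fun _ => ⟨hhz, hht, hniceA, ?_⟩,
            fun h => absurd h (by decide)⟩
          calc DA * DA ≤ DB := hDD
            _ < radM S (2 * LB) WB (a t) := hnice
            _ ≤ radM S M3 WB (a t) := radM_mono S hLBM3 le_rfl (a t)
        · push Not at hniceA
          obtain ⟨U', hhU', hU2', d', hsq', hd1', hdV', hdh, hin', hout', hfew', hpw'⟩ :=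
            caseH S M1 WA DA P LA hP hM1 hLA a h hWA1 hDA1 hv.few hniceA
          have hbigd' : ∀ i, (2 ^ E * Y i) ^ 4 ≤ d' ^ LA := fun i => (hbigA i).trans hpw'
          by_cases hjl' : ∃ j l, j ∈ U' ∧ l ∈ U' ∧ j ≠ l ∧ j ≠ z ∧ l ≠ z
          · -- class 2
            obtain ⟨j, l, hj, hl, hjl, hjz, hlz⟩ := hjl'
            refine ⟨2, (h, j, l), ?_⟩
            rw [hPr]
            refine ⟨fun h => absurd h (by decide), fun h => absurd h (by decide), fun _ => ?_,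
              fun h => absurd h (by decide), fun h => absurd h (by decide)⟩
            have hhj : h ≠ j := fun h' => hhU' (h' ▸ hj)
            have hhl : h ≠ l := fun h' => hhU' (h' ▸ hl)
            rw [hR1d]
            exact ⟨hhz, hjz, hlz, hhj, hhl, hjl, d',
              hd1', hdV', hdh, hin' j hj, hin' l hl, hbigd' j, hbigd' l⟩
          · -- class 4
            obtain ⟨h', hh'U, hh'z, hUh'⟩ := two_set U' z hU2' hjl'
            have hhh' : h ≠ h' := fun h'' => hhU' (h'' ▸ hh'U)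
            obtain ⟨r1, r2, r3⟩ := pair_dvd d' LA hLA1 hd1' hsq' a hv.sum U' z h' hh'z.symm
              hUh' hout' hfew'
            have hdN' : d' ^ LA ≤ N := by
              have h3 := hdh
              rw [Int.natCast_dvd] at h3
              have h4 := mem_Rset.1 (hv.mem h)
              exact (Nat.pow_le_pow_right hd1' (by omega)).trans
                ((Nat.le_of_dvd (Int.natAbs_pos.2 h4.1) h3).trans h4.2.1)
            obtain ⟨m, m1, m2, m3⟩ := hex z h h'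
            refine ⟨4, (h, h', m), ?_⟩
            rw [hPr]
            exact ⟨fun h => absurd h (by decide), fun h => absurd h (by decide),
              fun h => absurd h (by decide), fun h => absurd h (by decide),
              fun _ => ⟨hhz.symm, hh'z.symm, hhh', m1, m2, m3,
                ⟨d, hd1, hdV, hdN, q1, q2, q3, hbigd z, hbigd h⟩,
                ⟨d', hd1', hdV', hdN', r1, r3, hbigd' h'⟩⟩⟩
  -- the bound in every class
  have hreg1 : ∀ (L V : ℕ) (c : ℝ), (V : ℝ) ≤ 4 * (N : ℝ) ^ (c * lam) → c ≤ ε / 4 →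
      ∀ t' j l, ∀ T' : Finset (Fin (n + 2) → ℤ), T' ⊆ T → (∀ a ∈ T', R1 L V t' j l a) →
      (T'.card : ℝ) ≤ C1 * 4 * (Q * (N : ℝ) ^ (ε * lam)) := by
    intro L V c hV hcε t' j l T' hT' hR
    rcases T'.eq_empty_or_nonempty with h0 | ⟨a1, ha1⟩
    · rw [h0, Finset.card_empty, Nat.cast_zero]
      have : 0 ≤ C1 * 4 := by linarith
      positivity
    have hR' := hR
    rw [hR1d] at hR'
    obtain ⟨x1, x2, x3, x4, x5, x6, -⟩ := hR' a1 ha1
    have h1 := hR1 N Y hN hY1 L V t' j l x4 x5 x6 T' (by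
      intro a ha
      obtain ⟨-, -, -, -, -, -, hd⟩ := hR' a ha
      exact ⟨(hT a (hT' ha)).mem, (hT a (hT' ha)).sum, hd⟩)
    have h2 := hQ t' j l x1 x2 x3 x4 x5 x6
    have h3 : (N : ℝ) ^ (c * lam) * (N : ℝ) ^ (2 / ((E : ℝ) + 1) + ε / 4 * lam) ≤
        (N : ℝ) ^ (ε * lam) := by
      rw [← Real.rpow_add hN0]
      apply Real.rpow_le_rpow_of_exponent_le hNR
      have h4 : 2 / ((E : ℝ) + 1) ≤ 3 / ((E : ℝ) + 1) := by
        apply div_le_div_of_nonneg_right (by norm_num)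
        positivity
      have h5 := mul_le_mul_of_nonneg_right hcε hlam.le
      have h6 := mul_pos hε hlam
      linarith
    calc (T'.card : ℝ) ≤ _ := h1
      _ ≤ C1 * (4 * (N : ℝ) ^ (c * lam)) *
          (Q * (N : ℝ) ^ (2 / ((E : ℝ) + 1) + ε / 4 * lam)) := by gcongr
      _ = C1 * 4 * (Q * ((N : ℝ) ^ (c * lam) *
          (N : ℝ) ^ (2 / ((E : ℝ) + 1) + ε / 4 * lam))) := by ring
      _ ≤ _ := by gcongr
  have hone : ∀ (k : Fin 5) (T' : Finset (Fin (n + 2) → ℤ)), T' ⊆ T →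
      (∀ a ∈ T', ∃ x, Pr k x a) → (T'.card : ℝ) ≤
        (![CB, C1 * 4, C1 * 4, CA, C2 * 16] : Fin 5 → ℝ) k * (Q * (N : ℝ) ^ (ε * lam)) * F := by
    intro k T' hT' hx
    rw [hF]
    refine cover T' (Pr k) _ hx ?_
    rintro ⟨x, y, w⟩ T'' hT'' hP''
    have hTT : T'' ⊆ T := hT''.trans hT'
    rw [hPr] at hP''
    fin_cases k
    · change (T''.card : ℝ) ≤ CB * (Q * (N : ℝ) ^ (ε * lam))
      rcases T''.eq_empty_or_nonempty with h0 | ⟨a1, ha1⟩
      · rw [h0, Finset.card_empty, Nat.cast_zero]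
        exact mul_nonneg (by linarith) hQN
      obtain ⟨y1, y2, -, -⟩ := (hP'' a1 ha1).1 rfl
      have h1 := hB'' t x y2.symm T'' (by
        intro a ha
        obtain ⟨-, -, y3, y4⟩ := (hP'' a ha).1 rfl
        exact ⟨(hT a (hTT ha)).mem, (hT a (hTT ha)).sum, y3, y4⟩)
      have h2 := hQ2 x y1 y2
      refine h1.trans ?_
      refine mul_le_mul_of_nonneg_left ?_ (by linarith)
      exact mul_le_mul_of_nonneg_right h2 (by positivity)
    · exact hreg1 LB (DB * WB) (5 * κ) hVB (by linarith) x y w T'' hTT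
        (fun a ha => (hP'' a ha).2.1 rfl)
    · exact hreg1 LA (DA * WA) (2 * κ) hVA (by linarith) x y w T'' hTT
        (fun a ha => (hP'' a ha).2.2.1 rfl)
    · change (T''.card : ℝ) ≤ CA * (Q * (N : ℝ) ^ (ε * lam))
      rcases T''.eq_empty_or_nonempty with h0 | ⟨a1, ha1⟩
      · rw [h0, Finset.card_empty, Nat.cast_zero]
        exact mul_nonneg (by linarith) hQN
      obtain ⟨y1, y2, -, -⟩ := (hP'' a1 ha1).2.2.2.1 rfl
      have h1 := hA' x t y2 T'' (by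
        intro a ha
        obtain ⟨-, -, y3, y4⟩ := (hP'' a ha).2.2.2.1 rfl
        exact ⟨(hT a (hTT ha)).mem, (hT a (hTT ha)).sum, y3, y4⟩)
      have h2 := hQ2 x y1 y2
      rw [Finset.erase_right_comm] at h2
      refine h1.trans ?_
      refine mul_le_mul_of_nonneg_left ?_ (by linarith)
      exact mul_le_mul_of_nonneg_right h2 (by positivity)
    · change (T''.card : ℝ) ≤ C2 * 16 * (Q * (N : ℝ) ^ (ε * lam))
      rcases T''.eq_empty_or_nonempty with h0 | ⟨a1, ha1⟩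
      · rw [h0, Finset.card_empty, Nat.cast_zero]
        exact mul_nonneg (by linarith) hQN
      obtain ⟨y1, y2, y3, y4, y5, y6, -, -⟩ := (hP'' a1 ha1).2.2.2.2 rfl
      have h1 := hT2 N Y hN hY1 LA LB (DB * WB) (DA * WA) z x y w y1 y2 y3 y4 y5 y6 T'' (by
        intro a ha
        obtain ⟨-, -, -, -, -, -, g1, g2⟩ := (hP'' a ha).2.2.2.2 rfl
        exact ⟨(hT a (hTT ha)).mem, (hT a (hTT ha)).sum, g1, g2⟩)
      -- the product
      have hprod : (∏ k ∈ (((Finset.univ.erase z).erase x).erase y).erase w, (Y k : ℝ)) *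
          (Real.sqrt ((Y z : ℝ) * Y x) * Real.sqrt (Y y : ℝ)) ≤ Q := by
        have h2 := hQ w x y y4 y1.symm y2.symm y5 y6 y3
        refine le_trans ?_ h2
        have hzm : z ∈ ((Finset.univ.erase w).erase x).erase y :=
          Finset.mem_erase.2 ⟨y2, Finset.mem_erase.2 ⟨y1, Finset.mem_erase.2
            ⟨y4.symm, Finset.mem_univ _⟩⟩⟩
        have hset : (((Finset.univ.erase z).erase x).erase y).erase w =
            (((Finset.univ.erase w).erase x).erase y).erase z := by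
          ext k
          simp only [Finset.mem_erase, Finset.mem_univ, and_true]
          tauto
        rw [← Finset.prod_erase_mul _ _ hzm, hset]
        have hzR := hYR z
        have hxR := hYR x
        have hyR := hYR y
        have e1 : Real.sqrt ((Y z : ℝ) * Y x) * Real.sqrt (Y y : ℝ) ≤
            (Y z : ℝ) * Real.sqrt ((Y x : ℝ) * Y y) := by
          rw [Real.sqrt_mul (by linarith), Real.sqrt_mul (by linarith), mul_assoc]
          refine mul_le_mul_of_nonneg_right ?_ (by positivity)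
          rw [Real.sqrt_le_left (by linarith)]
          nlinarith
        calc (∏ k ∈ (((Finset.univ.erase w).erase x).erase y).erase z, (Y k : ℝ)) *
              (Real.sqrt ((Y z : ℝ) * Y x) * Real.sqrt (Y y : ℝ))
            ≤ (∏ k ∈ (((Finset.univ.erase w).erase x).erase y).erase z, (Y k : ℝ)) *
              ((Y z : ℝ) * Real.sqrt ((Y x : ℝ) * Y y)) :=
              mul_le_mul_of_nonneg_left e1 (Finset.prod_nonneg fun i _ => Nat.cast_nonneg _)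
          _ = _ := by ring
      have h3 : (N : ℝ) ^ (5 * κ * lam) * (N : ℝ) ^ (2 * κ * lam) *
          (N : ℝ) ^ (3 / ((E : ℝ) + 1) + ε / 4 * lam) ≤ (N : ℝ) ^ (ε * lam) := by
        rw [← Real.rpow_add hN0, ← Real.rpow_add hN0]
        apply Real.rpow_le_rpow_of_exponent_le hNR
        have h6 := mul_pos hε hlam
        linarith
      refine h1.trans ?_
      calc C2 * (((DB * WB : ℕ) : ℝ) * ((DA * WA : ℕ) : ℝ)) *
            (((∏ k ∈ (((Finset.univ.erase z).erase x).erase y).erase w, (Y k : ℝ)) *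
              (Real.sqrt ((Y z : ℝ) * Y x) * Real.sqrt (Y y : ℝ))) *
                (N : ℝ) ^ (3 / ((E : ℝ) + 1) + ε / 4 * lam))
          ≤ C2 * ((4 * (N : ℝ) ^ (5 * κ * lam)) * (4 * (N : ℝ) ^ (2 * κ * lam))) *
            (Q * (N : ℝ) ^ (3 / ((E : ℝ) + 1) + ε / 4 * lam)) := by gcongr
        _ = C2 * 16 * (Q * ((N : ℝ) ^ (5 * κ * lam) * (N : ℝ) ^ (2 * κ * lam) *
            (N : ℝ) ^ (3 / ((E : ℝ) + 1) + ε / 4 * lam))) := by ring
        _ ≤ C2 * 16 * (Q * (N : ℝ) ^ (ε * lam)) := by gcongr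
  obtain ⟨TT, hTT⟩ : ∃ TT : Fin 5 → Finset (Fin (n + 2) → ℤ),
    TT = fun k => T.filter (fun a => ∃ x, Pr k x a) := ⟨_, rfl⟩
  have hsub : T ⊆ (Finset.univ : Finset (Fin 5)).biUnion TT := by
    intro a ha
    obtain ⟨k, x, hx⟩ := hclass a ha
    rw [Finset.mem_biUnion]
    refine ⟨k, Finset.mem_univ _, ?_⟩
    rw [hTT, Finset.mem_filter]
    exact ⟨ha, x, hx⟩
  have h3 : (T.card : ℝ) ≤ ∑ k : Fin 5, ((TT k).card : ℝ) := by
    have := (Finset.card_le_card hsub).trans Finset.card_biUnion_le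
    exact_mod_cast this
  have h4 : ∀ k, ((TT k).card : ℝ) ≤
        (![CB, C1 * 4, C1 * 4, CA, C2 * 16] : Fin 5 → ℝ) k * (Q * (N : ℝ) ^ (ε * lam)) * F := by
    intro k
    apply hone k
    · rw [hTT]
      exact Finset.filter_subset _ _
    · intro a ha
      rw [hTT, Finset.mem_filter] at ha
      exact ha.2
  have h5 : (T.card : ℝ) ≤ CC * (Q * (N : ℝ) ^ (ε * lam)) * F := by
    refine h3.trans ((Finset.sum_le_sum fun k _ => h4 k).trans (le_of_eq ?_))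
    have hs : ∑ k : Fin 5, (![CB, C1 * 4, C1 * 4, CA, C2 * 16] : Fin 5 → ℝ) k = CC := by
      rw [Fin.sum_univ_five, hCC]
      rfl
    rw [← Finset.sum_mul, ← Finset.sum_mul, hs]
  have h6 : (0 : ℝ) ≤ (2 * (N1 : ℝ) + 1) ^ (n + 2) * (Q * (N : ℝ) ^ (ε * lam)) :=
    mul_nonneg (by linarith) hQN
  linarith

end Pool.Agent.Helper97.TX
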