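import Pool.Agent.Helper97.TX.Defs

/-!
TX-F1 (MP_464c42_nt). Collisions of numbers with bounded valuations at the primes of `d`, and the pointwise bound. (helper97)

`collH`: a pair `(a, a')` with `a = a'` modulo `d ^ (2 L)` and no `p ^ L` (`p ∣ d`) dividing `a`, `a'` has the same part `g ∣ d ^ L` at the primes
of `d`; `b = a / g`, `b' = a' / g` are prime to `d`, have radicals at most `y`, and agree modulo `d ^ (2 L) / g ≥ d ^ L`: `collisionR`. At most
`tau (d ^ L)` numbers `g`.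
-/

set_option autoImplicit false

open Pool.Agent.Helper87.Camp Pool.Agent.Helper10 Pool.Agent.Helper91.CPX

namespace Pool.Agent.Helper97.TX

open Pool.Agent.Helper24.TU Pool.Agent.Helper24.TV Pool.Agent.Helper87.RP

/-- A residue class contains at most the square root of the number of collisions. -/
theorem linf (q : ℕ) (A : Finset ℤ) (r : ZMod q) :
    ((A.filter (fun a : ℤ => (a : ZMod q) = r)).card : ℝ) ^ 2 ≤
      (coll A (fun a : ℤ => (a : ZMod q)) : ℝ) := by
  have h : (A.filter (fun a : ℤ => (a : ZMod q) = r)).card ^ 2 ≤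
      coll A (fun a : ℤ => (a : ZMod q)) := by
    unfold coll
    rw [sq, ← Finset.card_product]
    apply Finset.card_le_card
    intro p hp
    rw [Finset.mem_product, Finset.mem_filter, Finset.mem_filter] at hp
    rw [Finset.mem_filter, Finset.mem_product]
    exact ⟨⟨hp.1.1, hp.2.1⟩, hp.1.2.trans hp.2.2.symm⟩
  exact_mod_cast h

/-- The part of `a` at the primes of `d`, when no `p ^ L` divides `a`. -/
theorem part_coprime (d L : ℕ) (hd : 1 ≤ d) (a : ℤ) (ha : a ≠ 0)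
    (h : ∀ p ∈ d.primeFactors, ¬ (p : ℤ) ^ L ∣ a) (b : ℤ)
    (hb : a = (Nat.gcd a.natAbs (d ^ L) : ℕ) * b) : IsCoprime b (d : ℤ) := by
  obtain ⟨g, hg⟩ : ∃ g : ℕ, g = Nat.gcd a.natAbs (d ^ L) := ⟨_, rfl⟩
  rw [← hg] at hb
  have hd0 : d ≠ 0 := by omega
  have hdL : d ^ L ≠ 0 := pow_ne_zero _ hd0
  have hg0 : g ≠ 0 := by
    rw [hg]
    exact Nat.gcd_ne_zero_right hdL
  have hgd : g ∣ d ^ L := by rw [hg]; exact Nat.gcd_dvd_right _ _
  rw [Int.isCoprime_iff_gcd_eq_one]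
  by_contra hne
  obtain ⟨p, hp, hpd⟩ := Nat.exists_prime_and_dvd hne
  have h1 : (p : ℤ) ∣ b := (Int.natCast_dvd_natCast.2 hpd).trans (Int.gcd_dvd_left ..)
  have h2 : (p : ℤ) ∣ (d : ℤ) := (Int.natCast_dvd_natCast.2 hpd).trans (Int.gcd_dvd_right ..)
  have h2' : p ∣ d := by exact_mod_cast h2
  have hpm : p ∈ d.primeFactors := Nat.mem_primeFactors.2 ⟨hp, h2', hd0⟩
  -- `g * p` divides `a`
  have h3 : ((g * p : ℕ) : ℤ) ∣ a := by
    rw [hb]
    push_cast
    exact mul_dvd_mul_left _ h1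
  have h3' : g * p ∣ a.natAbs := Int.natCast_dvd.1 h3
  -- the valuation of `g` is less than `L`
  have h4 : g.factorization p < L := by
    by_contra hle
    push Not at hle
    have h5 : p ^ L ∣ g := (pow_dvd_pow p hle).trans (Nat.ordProj_dvd g p)
    apply h p hpm
    have h6 : ((p ^ L : ℕ) : ℤ) ∣ a := by
      rw [hb]
      exact (Int.natCast_dvd_natCast.2 h5).mul_right _
    exact_mod_cast h6
  have h7 : g * p ∣ d ^ L := by
    rw [← Nat.factorization_le_iff_dvd (Nat.mul_ne_zero hg0 hp.ne_zero) hdL]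
    intro r
    rw [Nat.factorization_mul hg0 hp.ne_zero, Nat.factorization_pow]
    have h8 := (Nat.factorization_le_iff_dvd hg0 hdL).2 hgd r
    rw [Nat.factorization_pow] at h8
    by_cases hr : r = p
    · subst hr
      have h9 : 1 ≤ d.factorization r := hp.factorization_pos_of_dvd hd0 h2'
      simp only [Finsupp.coe_add, Finsupp.coe_smul, Pi.add_apply, Pi.smul_apply, smul_eq_mul] at h8 ⊢
      rw [hp.factorization_self]
      calc g.factorization r + 1 ≤ L := h4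
        _ ≤ L * d.factorization r := Nat.le_mul_of_pos_right _ h9
    · simp only [Finsupp.coe_add, Finsupp.coe_smul, Pi.add_apply, Pi.smul_apply, smul_eq_mul] at h8 ⊢
      have h10 : p.factorization r = 0 := by
        rw [hp.factorization, Finsupp.single_apply, if_neg (fun h => hr h.symm)]
      rw [h10, add_zero]
      exact h8
  have h11 : g * p ∣ g := by
    conv_rhs => rw [hg]
    exact Nat.dvd_gcd h3' h7
  have h12 := Nat.le_of_dvd (Nat.pos_of_ne_zero hg0) h11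
  have h13 := hp.one_lt
  nlinarith [Nat.pos_of_ne_zero hg0]

/-- Congruent numbers have the same part. -/
theorem part_eq (d L : ℕ) (a a' : ℤ) (h : ((d ^ (2 * L) : ℕ) : ℤ) ∣ a - a') :
    Nat.gcd a.natAbs (d ^ L) = Nat.gcd a'.natAbs (d ^ L) := by
  have h0 : ((d ^ L : ℕ) : ℤ) ∣ a - a' := by
    refine (Int.natCast_dvd_natCast.2 ?_).trans h
    exact pow_dvd_pow d (by omega)
  have key : ∀ x y : ℤ, ((d ^ L : ℕ) : ℤ) ∣ x - y →
      Nat.gcd x.natAbs (d ^ L) ∣ Nat.gcd y.natAbs (d ^ L) := by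
    intro x y hxy
    apply Nat.dvd_gcd _ (Nat.gcd_dvd_right _ _)
    apply Int.natCast_dvd.1
    have h1 : ((Nat.gcd x.natAbs (d ^ L) : ℕ) : ℤ) ∣ x :=
      Int.natCast_dvd.2 (Nat.gcd_dvd_left _ _)
    have h2 : ((Nat.gcd x.natAbs (d ^ L) : ℕ) : ℤ) ∣ x - y :=
      (Int.natCast_dvd_natCast.2 (Nat.gcd_dvd_right _ _)).trans hxy
    have h3 := dvd_sub h1 h2
    rwa [sub_sub_cancel] at h3
  apply Nat.dvd_antisymm (key a a' h0)
  apply key a' a
  rw [← neg_sub]
  exact (dvd_neg).2 h0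

theorem collH (S : Finset ℕ) (E : ℕ) (hE : 1 ≤ E) (ε : ℝ) (hε : 0 < ε) :
    ∃ C : ℝ, 1 ≤ C ∧ ∀ y N d L : ℕ, 1 ≤ y → 1 ≤ N → 1 ≤ d → d ^ (2 * L) ≤ N →
      (2 ^ E * y) ^ 4 ≤ d ^ L →
      (coll ((Rset S y N).filter (fun a : ℤ => ∀ p ∈ d.primeFactors, ¬ (p : ℤ) ^ L ∣ a))
        (fun a : ℤ => (a : ZMod (d ^ (2 * L)))) : ℝ) ≤
        C * ((y : ℝ) * (N : ℝ) ^ (2 / ((E : ℝ) + 1) + ε)) := by
  classical
  obtain ⟨δ, hδ⟩ : ∃ δ : ℝ, δ = ε / 3 := ⟨_, rfl⟩
  have hδ0 : 0 < δ := by rw [hδ]; positivity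
  obtain ⟨C2, hC2, h2⟩ := collisionR S E hE δ hδ0
  obtain ⟨C3, hC3, htau⟩ := tau_rpow δ hδ0
  refine ⟨C3 * C2, one_le_mul_of_one_le_of_one_le hC3 hC2, fun y N d L hy hN hd hdN hb => ?_⟩
  have hN1 : (1 : ℝ) ≤ N := by exact_mod_cast hN
  have hN0 : (0 : ℝ) < N := by linarith
  obtain ⟨c, hc⟩ : ∃ c : ℝ, c = 2 / ((E : ℝ) + 1) := ⟨_, rfl⟩
  rw [← hc] at h2 ⊢
  have hdL1 : 1 ≤ d ^ L := Nat.one_le_pow _ _ hd
  have hd2 : d ^ (2 * L) = d ^ L * d ^ L := by rw [two_mul, pow_add]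
  have hdLN : d ^ L ≤ N := by
    calc d ^ L ≤ d ^ L * d ^ L := Nat.le_mul_of_pos_right _ hdL1
      _ = d ^ (2 * L) := hd2.symm
      _ ≤ N := hdN
  obtain ⟨A, hA⟩ : ∃ A : Finset ℤ, A =
    (Rset S y N).filter (fun a : ℤ => ∀ p ∈ d.primeFactors, ¬ (p : ℤ) ^ L ∣ a) := ⟨_, rfl⟩
  rw [← hA]
  have hAm : ∀ a ∈ A, a ∈ Rset S y N ∧ ∀ p ∈ d.primeFactors, ¬ (p : ℤ) ^ L ∣ a := by
    intro a ha
    rw [hA, Finset.mem_filter] at ha
    exact ha
  obtain ⟨K, hK⟩ : ∃ K : ℝ, K = C2 * (N : ℝ) ^ δ * ((y : ℝ) * (N : ℝ) ^ (c + δ)) := ⟨_, rfl⟩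
  have hK0 : 0 ≤ K := by rw [hK]; positivity
  obtain ⟨P, hP⟩ : ∃ P : Finset (ℤ × ℤ), P =
    (A ×ˢ A).filter (fun p => (p.1 : ZMod (d ^ (2 * L))) = (p.2 : ZMod (d ^ (2 * L)))) := ⟨_, rfl⟩
  have hcoll : coll A (fun a : ℤ => (a : ZMod (d ^ (2 * L)))) = P.card := by
    rw [hP]
    rfl
  have hPm : ∀ p ∈ P, p.1 ∈ A ∧ p.2 ∈ A ∧ ((d ^ (2 * L) : ℕ) : ℤ) ∣ p.1 - p.2 := by
    intro p hp
    rw [hP, Finset.mem_filter, Finset.mem_product] at hp
    refine ⟨hp.1.1, hp.1.2, ?_⟩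
    have h3 := (ZMod.intCast_eq_intCast_iff_dvd_sub p.1 p.2 (d ^ (2 * L))).1 hp.2
    rw [← neg_sub]
    exact (dvd_neg).2 h3
  have hmain : (P.card : ℝ) ≤ K * ((d ^ L).divisors.card : ℝ) := by
    apply card_le_real (fun p : ℤ × ℤ => Nat.gcd p.1.natAbs (d ^ L))
    · intro p _
      rw [Nat.mem_divisors]
      exact ⟨Nat.gcd_dvd_right _ _, by omega⟩
    · intro g hg
      rw [Nat.mem_divisors] at hg
      obtain ⟨hgd, -⟩ := hg
      have hg0 : 0 < g := Nat.pos_of_dvd_of_pos hgd hdL1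
      have hgle : g ≤ d ^ L := Nat.le_of_dvd hdL1 hgd
      obtain ⟨e, he⟩ := hgd
      obtain ⟨q, hq⟩ : ∃ q : ℕ, q = e * d ^ L := ⟨_, rfl⟩
      have hgq : d ^ (2 * L) = g * q := by rw [hd2, hq, ← mul_assoc, ← he]
      have he0 : 1 ≤ e := by
        rcases Nat.eq_zero_or_pos e with h0 | h0
        · rw [h0, mul_zero] at he; omega
        · exact h0
      have hqL : d ^ L ≤ q := by rw [hq]; exact Nat.le_mul_of_pos_left _ he0
      have hq1 : 1 ≤ q := hdL1.trans hqL
      have hqN : q ≤ N := by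
        refine le_trans ?_ hdN
        rw [hgq]
        exact Nat.le_mul_of_pos_left _ hg0
      have hqd : q ∣ d ^ (2 * L) := ⟨g, by rw [hgq, mul_comm]⟩
      have hle : (P.filter (fun p : ℤ × ℤ => Nat.gcd p.1.natAbs (d ^ L) = g)).card ≤
          coll ((Rset S y N).filter (fun a => IsCoprime a (q : ℤ))) (fun a : ℤ => (a : ZMod q)) := by
        unfold coll
        refine Finset.card_le_card_of_injOn (fun p => (p.1 / (g : ℤ), p.2 / (g : ℤ))) ?_ ?_
        · intro p hp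
          rw [Finset.mem_coe, Finset.mem_filter] at hp
          obtain ⟨hpP, hpg⟩ := hp
          obtain ⟨hp1, hp2, hpd⟩ := hPm p hpP
          have hpg2 : Nat.gcd p.2.natAbs (d ^ L) = g := by
            rw [← part_eq d L p.1 p.2 hpd]
            exact hpg
          have hone : ∀ a ∈ A, Nat.gcd a.natAbs (d ^ L) = g →
              a = (g : ℤ) * (a / (g : ℤ)) ∧ a / (g : ℤ) ∈
                (Rset S y N).filter (fun a => IsCoprime a (q : ℤ)) := by
            intro a ha hag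
            obtain ⟨ha1, ha2⟩ := hAm a ha
            have hm := mem_Rset.1 ha1
            have hga : (g : ℤ) ∣ a := by
              rw [← hag]
              exact Int.natCast_dvd.2 (Nat.gcd_dvd_left _ _)
            have h4 : a = (g : ℤ) * (a / (g : ℤ)) := (Int.mul_ediv_cancel' hga).symm
            have h5 : a / (g : ℤ) ≠ 0 := by
              intro h0
              rw [h0, mul_zero] at h4
              exact hm.1 h4
            have h6 : a / (g : ℤ) ∣ a := ⟨(g : ℤ), by rw [mul_comm]; exact h4⟩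
            refine ⟨h4, ?_⟩
            rw [Finset.mem_filter, mem_Rset]
            refine ⟨⟨h5, ?_, ?_⟩, ?_⟩
            · exact (Nat.le_of_dvd (Int.natAbs_pos.2 hm.1) (Int.natAbs_dvd_natAbs.2 h6)).trans
                hm.2.1
            · exact (radS_le_of_dvd S h6 hm.1).trans hm.2.2
            · have h7 := part_coprime d L hd a hm.1 ha2 (a / (g : ℤ)) (by rw [hag]; exact h4)
              have h8 : IsCoprime (a / (g : ℤ)) ((d ^ (2 * L) : ℕ) : ℤ) := by
                push_cast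
                exact h7.pow_right
              exact h8.of_isCoprime_of_dvd_right (Int.natCast_dvd_natCast.2 hqd)
          obtain ⟨e1, m1⟩ := hone p.1 hp1 hpg
          obtain ⟨e2, m2⟩ := hone p.2 hp2 hpg2
          rw [Finset.mem_coe, Finset.mem_filter, Finset.mem_product]
          refine ⟨⟨m1, m2⟩, ?_⟩
          change ((p.1 / (g : ℤ) : ℤ) : ZMod q) = ((p.2 / (g : ℤ) : ℤ) : ZMod q)
          rw [ZMod.intCast_eq_intCast_iff_dvd_sub]
          have h9 : (g : ℤ) * (q : ℤ) ∣ (g : ℤ) * (p.2 / (g : ℤ) - p.1 / (g : ℤ)) := by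
            rw [mul_sub, ← e1, ← e2, ← neg_sub]
            have h10 : ((g : ℤ) * (q : ℤ)) = ((d ^ (2 * L) : ℕ) : ℤ) := by
              rw [hgq]
              push_cast
              rfl
            rw [h10]
            exact (dvd_neg).2 hpd
          exact (mul_dvd_mul_iff_left (by exact_mod_cast hg0.ne')).1 h9
        · intro p hp p' hp' hpp
          rw [Finset.mem_coe, Finset.mem_filter] at hp hp'
          have hdiv : ∀ p ∈ P, Nat.gcd p.1.natAbs (d ^ L) = g →
              (g : ℤ) ∣ p.1 ∧ (g : ℤ) ∣ p.2 := by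
            intro p hpP hpg
            obtain ⟨-, -, hpd⟩ := hPm p hpP
            have hpg2 : Nat.gcd p.2.natAbs (d ^ L) = g := by
              rw [← part_eq d L p.1 p.2 hpd]
              exact hpg
            constructor
            · rw [← hpg]
              exact Int.natCast_dvd.2 (Nat.gcd_dvd_left _ _)
            · rw [← hpg2]
              exact Int.natCast_dvd.2 (Nat.gcd_dvd_left _ _)
          obtain ⟨a1, a2⟩ := hdiv p hp.1 hp.2
          obtain ⟨b1, b2⟩ := hdiv p' hp'.1 hp'.2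
          have c1 : p.1 / (g : ℤ) = p'.1 / (g : ℤ) := congrArg Prod.fst hpp
          have c2 : p.2 / (g : ℤ) = p'.2 / (g : ℤ) := congrArg Prod.snd hpp
          apply Prod.ext
          · rw [← Int.mul_ediv_cancel' a1, ← Int.mul_ediv_cancel' b1, c1]
          · rw [← Int.mul_ediv_cancel' a2, ← Int.mul_ediv_cancel' b2, c2]
      have h3 : (coll ((Rset S y N).filter (fun a => IsCoprime a (q : ℤ)))
          (fun a : ℤ => (a : ZMod q)) : ℝ) ≤ K := by
        refine (h2 y N q hy hN hq1 (hb.trans hqL)).trans ?_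
        rw [hK]
        refine mul_le_mul_of_nonneg_right ?_ (by positivity)
        refine mul_le_mul_of_nonneg_left ?_ (by linarith)
        exact Real.rpow_le_rpow (Nat.cast_nonneg _) (by exact_mod_cast hqN) hδ0.le
      exact le_trans (by exact_mod_cast hle) h3
  have h5 : ((d ^ L).divisors.card : ℝ) ≤ C3 * (N : ℝ) ^ δ := by
    have h6 := htau (d ^ L) (by omega)
    refine h6.trans ?_
    refine mul_le_mul_of_nonneg_left ?_ (by linarith)
    exact Real.rpow_le_rpow (Nat.cast_nonneg _) (by exact_mod_cast hdLN) hδ0.le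
  rw [hcoll]
  calc (P.card : ℝ) ≤ K * ((d ^ L).divisors.card : ℝ) := hmain
    _ ≤ K * (C3 * (N : ℝ) ^ δ) := mul_le_mul_of_nonneg_left h5 hK0
    _ = C3 * C2 * ((y : ℝ) * ((N : ℝ) ^ (c + δ) * (N : ℝ) ^ δ * (N : ℝ) ^ δ)) := by
        rw [hK]
        ring
    _ = _ := by
        rw [← Real.rpow_add hN0, ← Real.rpow_add hN0]
        congr 3
        rw [hδ]
        ring

end Pool.Agent.Helper97.TX
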