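import Pool.Agent.Helper97.TX.Coll

/-!
TX-F2 (MP_464c42_nt). `reg1` (`Helper87/RP/Reg1.lean`) with bounded valuations instead of coprimality. (helper97)
-/

set_option autoImplicit false

open Pool.Agent.Helper87.Camp Pool.Agent.Helper10 Pool.Agent.Helper91.CPX

namespace Pool.Agent.Helper97.TX

open Pool.Agent.Helper24.TU Pool.Agent.Helper24.TV Pool.Agent.Helper87.RP

theorem reg1H (n E : ℕ) (hn : 1 ≤ n) (hE : 1 ≤ E) (S : Finset ℕ) (ε : ℝ) (hε : 0 < ε) :
    ∃ C : ℝ, 1 ≤ C ∧ ∀ (N : ℕ) (Y : Fin (n + 2) → ℕ), 1 ≤ N → (∀ i, 1 ≤ Y i) → ∀ L V : ℕ,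
      ∀ t j l : Fin (n + 2), t ≠ j → t ≠ l → j ≠ l → ∀ T : Finset (Fin (n + 2) → ℤ),
      (∀ a ∈ T, (∀ i, a i ∈ Rset S (Y i) N) ∧ ∑ i, a i = 0 ∧
        ∃ d : ℕ, 1 ≤ d ∧ d ≤ V ∧ ((d ^ (2 * L) : ℕ) : ℤ) ∣ a t ∧
          (∀ p ∈ d.primeFactors, ¬ (p : ℤ) ^ L ∣ a j) ∧
          (∀ p ∈ d.primeFactors, ¬ (p : ℤ) ^ L ∣ a l) ∧
          (2 ^ E * Y j) ^ 4 ≤ d ^ L ∧ (2 ^ E * Y l) ^ 4 ≤ d ^ L) →
      (T.card : ℝ) ≤ C * (V : ℝ) * (((∏ h ∈ ((Finset.univ.erase t).erase j).erase l, (Y h : ℝ)) *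
        Real.sqrt ((Y j : ℝ) * Y l)) * (N : ℝ) ^ (2 / ((E : ℝ) + 1) + ε)) := by
  classical
  obtain ⟨δ, hδ⟩ : ∃ δ : ℝ, δ = ε / ((n : ℝ) + 2) := ⟨_, rfl⟩
  have hδ0 : 0 < δ := by rw [hδ]; positivity
  obtain ⟨C1, hC1, h1⟩ := rset_count S δ hδ0
  obtain ⟨C2, hC2, h2⟩ := collH S E hE δ hδ0
  refine ⟨C1 ^ (n - 1) * C2, one_le_mul_of_one_le_of_one_le (one_le_pow₀ hC1) hC2,
    fun N Y hN hY L V t j l htj htl hjl T hT => ?_⟩
  have hN1 : (1 : ℝ) ≤ N := by exact_mod_cast hN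
  have hN0 : (0 : ℝ) < N := by linarith
  obtain ⟨c, hc⟩ : ∃ c : ℝ, c = 2 / ((E : ℝ) + 1) := ⟨_, rfl⟩
  rw [← hc] at h2 ⊢
  have hj' : j ∈ (Finset.univ : Finset (Fin (n + 2))).erase t :=
    Finset.mem_erase.2 ⟨htj.symm, Finset.mem_univ _⟩
  have hl' : l ∈ ((Finset.univ : Finset (Fin (n + 2))).erase t).erase j :=
    Finset.mem_erase.2 ⟨hjl.symm, Finset.mem_erase.2 ⟨htl.symm, Finset.mem_univ _⟩⟩
  obtain ⟨G, hG⟩ : ∃ G : Finset (Fin (n + 2)), G = ((Finset.univ.erase t).erase j).erase l :=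
    ⟨_, rfl⟩
  rw [← hG]
  have hsplit : ∀ a : Fin (n + 2) → ℤ, ∑ h, a h = a t + (a j + (a l + ∑ h ∈ G, a h)) := by
    intro a
    rw [hG, ← Finset.add_sum_erase Finset.univ a (Finset.mem_univ t),
      ← Finset.add_sum_erase _ a hj', ← Finset.add_sum_erase _ a hl']
  have hGc : G.card = n - 1 := by
    rw [hG, Finset.card_erase_of_mem hl', Finset.card_erase_of_mem hj',
      Finset.card_erase_of_mem (Finset.mem_univ t), Finset.card_univ, Fintype.card_fin]
    omega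
  have hmemG : ∀ h, h ≠ t → h ≠ j → h ≠ l → h ∈ G := by
    intro h h1 h2 h3
    rw [hG, Finset.mem_erase, Finset.mem_erase, Finset.mem_erase]
    exact ⟨h3, h2, h1, Finset.mem_univ _⟩
  choose! gd hd1 hdV hdiv hcj hcl hbj hbl using fun a ha => (hT a ha).2.2
  obtain ⟨K, hK⟩ : ∃ K : ℝ, K = C2 * (Real.sqrt ((Y j : ℝ) * Y l) * (N : ℝ) ^ (c + δ)) :=
    ⟨_, rfl⟩
  have hK0 : 0 ≤ K := by rw [hK]; positivity
  let R : (Fin (n + 2) → ℤ) → ((h : G) → ℤ) := fun a h => a h.1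
  let U : Finset (ℕ × ((h : G) → ℤ)) :=
    Finset.Icc 1 V ×ˢ Fintype.piFinset (fun h : G => Rset S (Y h.1) N)
  have hstep : (T.card : ℝ) ≤ K * (U.card : ℝ) := by
    apply card_le_real (fun a => (gd a, R a))
    · intro a ha
      rw [Finset.mem_product, Finset.mem_Icc, Fintype.mem_piFinset]
      exact ⟨⟨hd1 a ha, hdV a ha⟩, fun h => (hT a ha).1 h.1⟩
    · rintro ⟨d, u⟩ _
      rcases (T.filter (fun a => (gd a, R a) = (d, u))).eq_empty_or_nonempty with h0 | ⟨a1, ha1⟩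
      · rw [h0, Finset.card_empty, Nat.cast_zero]
        exact hK0
      · have hkey : ∀ a ∈ T.filter (fun a => (gd a, R a) = (d, u)),
            a ∈ T ∧ gd a = d ∧ R a = u := by
          intro a ha
          rw [Finset.mem_filter, Prod.mk.injEq] at ha
          exact ⟨ha.1, ha.2.1, ha.2.2⟩
        obtain ⟨hT1, e1, e2⟩ := hkey a1 ha1
        have hd1' : 1 ≤ d := by rw [← e1]; exact hd1 a1 hT1
        have hbj' : (2 ^ E * Y j) ^ 4 ≤ d ^ L := by rw [← e1]; exact hbj a1 hT1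
        have hbl' : (2 ^ E * Y l) ^ 4 ≤ d ^ L := by rw [← e1]; exact hbl a1 hT1
        have hq1 : 1 ≤ d ^ (2 * L) := Nat.one_le_pow _ _ hd1'
        have hqN : d ^ (2 * L) ≤ N := by
          have h3 := hdiv a1 hT1
          rw [e1, Int.natCast_dvd] at h3
          have h4 := mem_Rset.1 ((hT a1 hT1).1 t)
          exact (Nat.le_of_dvd (Int.natAbs_pos.2 h4.1) h3).trans h4.2.1
        have hneq : NeZero (d ^ (2 * L)) := ⟨by omega⟩
        obtain ⟨k, hk⟩ : ∃ k : ℤ, k = -∑ h ∈ G, a1 h := ⟨_, rfl⟩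
        have hsum : ∀ a ∈ T.filter (fun a => (gd a, R a) = (d, u)), a t + (a j + a l) = k := by
          intro a ha
          obtain ⟨hTa, f1, f2⟩ := hkey a ha
          have h3 := (hT a hTa).2.1
          rw [hsplit] at h3
          have h4 : ∑ h ∈ G, a h = ∑ h ∈ G, a1 h := by
            refine Finset.sum_congr rfl fun h hh => ?_
            have h5 : R a = R a1 := by rw [f2, e2]
            exact congrFun h5 ⟨h, hh⟩
          rw [h4] at h3
          rw [hk]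
          linarith
        obtain ⟨A, hA⟩ : ∃ A : Finset ℤ,
          A = (Rset S (Y j) N).filter (fun a : ℤ => ∀ p ∈ d.primeFactors, ¬ (p : ℤ) ^ L ∣ a) :=
          ⟨_, rfl⟩
        obtain ⟨B, hB⟩ : ∃ B : Finset ℤ,
          B = (Rset S (Y l) N).filter (fun a : ℤ => ∀ p ∈ d.primeFactors, ¬ (p : ℤ) ^ L ∣ a) :=
          ⟨_, rfl⟩
        have hle : (T.filter (fun a => (gd a, R a) = (d, u))).card ≤
            ((A ×ˢ B).filter (fun p => ((d ^ (2 * L) : ℕ) : ℤ) ∣ p.1 + p.2 - k)).card := by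
          refine Finset.card_le_card_of_injOn (fun a => (a j, a l)) ?_ ?_
          · intro a ha
            rw [Finset.mem_coe] at ha
            have hs := hsum a ha
            obtain ⟨hTa, f1, f2⟩ := hkey a ha
            have hcj' := hcj a hTa
            have hcl' := hcl a hTa
            have hdv := hdiv a hTa
            rw [f1] at hcj' hcl' hdv
            rw [Finset.mem_coe, Finset.mem_filter, Finset.mem_product, hA, hB,
              Finset.mem_filter, Finset.mem_filter]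
            refine ⟨⟨⟨(hT a hTa).1 j, hcj'⟩, ⟨(hT a hTa).1 l, hcl'⟩⟩, ?_⟩
            have e3 : a j + a l - k = - a t := by linarith
            change _ ∣ a j + a l - k
            rw [e3]
            exact (dvd_neg).2 hdv
          · intro a ha b hb hab
            rw [Finset.mem_coe] at ha hb
            have i1 : a j = b j := congrArg Prod.fst hab
            have i2 : a l = b l := congrArg Prod.snd hab
            have hsa := hsum a ha
            have hsb := hsum b hb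
            have i3 : a t = b t := by
              rw [i1, i2] at hsa
              linarith
            funext h
            by_cases hh1 : h = t
            · rw [hh1]; exact i3
            · by_cases hh2 : h = j
              · rw [hh2]; exact i1
              · by_cases hh3 : h = l
                · rw [hh3]; exact i2
                · have h5 : R a = R b := by rw [(hkey a ha).2.2, (hkey b hb).2.2]
                  exact congrFun h5 ⟨h, hmemG h hh1 hh2 hh3⟩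
        have h3 := pair_mod2 (d ^ (2 * L)) A B k
        have h4 := h2 (Y j) N d L (hY j) hN hd1' hqN hbj'
        have h5 := h2 (Y l) N d L (hY l) hN hd1' hqN hbl'
        rw [← hA] at h4
        rw [← hB] at h5
        have h6 : ((T.filter (fun a => (gd a, R a) = (d, u))).card : ℝ) ≤
            (((A ×ˢ B).filter (fun p => ((d ^ (2 * L) : ℕ) : ℤ) ∣ p.1 + p.2 - k)).card : ℝ) := by
          exact_mod_cast hle
        refine h6.trans ?_
        refine (sq_le_sq₀ (Nat.cast_nonneg _) hK0).1 ?_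
        refine h3.trans ?_
        have h7 : K ^ 2 = (C2 * ((Y j : ℝ) * (N : ℝ) ^ (c + δ))) *
            (C2 * ((Y l : ℝ) * (N : ℝ) ^ (c + δ))) := by
          have h9 : Real.sqrt ((Y j : ℝ) * Y l) ^ 2 = (Y j : ℝ) * Y l :=
            Real.sq_sqrt (by positivity)
          rw [hK, mul_pow, mul_pow, h9]
          ring
        rw [h7]
        exact mul_le_mul h4 h5 (Nat.cast_nonneg _) (by positivity)
  have hUc : (U.card : ℝ) ≤ (V : ℝ) * (C1 ^ (n - 1) * ((∏ h ∈ G, (Y h : ℝ)) *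
      (N : ℝ) ^ (δ * ((n - 1 : ℕ) : ℝ)))) := by
    have e1 : U.card = V * ∏ h : G, (Rset S (Y h.1) N).card := by
      change (Finset.Icc 1 V ×ˢ Fintype.piFinset (fun h : G => Rset S (Y h.1) N)).card = _
      rw [Finset.card_product, Nat.card_Icc, Nat.add_sub_cancel, Fintype.card_piFinset]
    rw [e1]
    push_cast
    refine mul_le_mul_of_nonneg_left ?_ (Nat.cast_nonneg _)
    have e2 : ∏ h : G, ((Rset S (Y h.1) N).card : ℝ) ≤
        ∏ h : G, (C1 * ((Y h.1 : ℝ) * (N : ℝ) ^ δ)) :=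
      Finset.prod_le_prod (fun h _ => Nat.cast_nonneg _) fun h _ => h1 (Y h.1) N (hY h.1) hN
    refine e2.trans (le_of_eq ?_)
    rw [Finset.prod_coe_sort G (fun h => C1 * ((Y h : ℝ) * (N : ℝ) ^ δ)), Finset.prod_mul_distrib,
      Finset.prod_mul_distrib, Finset.prod_const, Finset.prod_const, hGc, ← Real.rpow_natCast
        ((N : ℝ) ^ δ), ← Real.rpow_mul hN0.le]
  have hexp : (N : ℝ) ^ (c + δ) * (N : ℝ) ^ (δ * ((n - 1 : ℕ) : ℝ)) ≤ (N : ℝ) ^ (c + ε) := by
    rw [← Real.rpow_add hN0]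
    refine Real.rpow_le_rpow_of_exponent_le hN1 ?_
    have h3 : ((n : ℝ) + 2) * δ = ε := by
      rw [hδ]
      field_simp
    have h4 : ((n - 1 : ℕ) : ℝ) = (n : ℝ) - 1 := by
      rw [Nat.cast_sub hn, Nat.cast_one]
    rw [h4]
    nlinarith
  have hP0 : (0 : ℝ) ≤ ∏ h ∈ G, (Y h : ℝ) := Finset.prod_nonneg fun h _ => Nat.cast_nonneg _
  have hC1p : (0 : ℝ) ≤ C1 ^ (n - 1) := by positivity
  have hC20 : (0 : ℝ) ≤ C2 := by linarith
  calc (T.card : ℝ) ≤ K * (U.card : ℝ) := hstep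
    _ ≤ K * ((V : ℝ) * (C1 ^ (n - 1) * ((∏ h ∈ G, (Y h : ℝ)) *
      (N : ℝ) ^ (δ * ((n - 1 : ℕ) : ℝ))))) := mul_le_mul_of_nonneg_left hUc hK0
    _ = C1 ^ (n - 1) * C2 * (V : ℝ) * (((∏ h ∈ G, (Y h : ℝ)) * Real.sqrt ((Y j : ℝ) * Y l)) *
        ((N : ℝ) ^ (c + δ) * (N : ℝ) ^ (δ * ((n - 1 : ℕ) : ℝ)))) := by
        rw [hK]
        ring
    _ ≤ _ := by gcongr

end Pool.Agent.Helper97.TX
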