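import Pool.Agent.Helper87.RP.Pick
import Pool.Agent.Helper87.RP.Reg1
import Pool.Agent.Helper87.RP.RegPL
import Pool.Agent.Helper87.RP.Reg2

/-!
TX (MP_464c42_nt). `n + 2` integers with sum zero and small radicals, separate bounds: the data.
(helper97)
-/

set_option autoImplicit false

open Pool.Agent.Helper87.Camp Pool.Agent.Helper10 Pool.Agent.Helper91.CPX

namespace Pool.Agent.Helper97.TX

open Pool.Agent.Helper24.TU Pool.Agent.Helper24.TV Pool.Agent.Helper87.RP

/-- Size, radicals, sum zero, a large term, small common divisors, and every prime outside `S` misses two of the terms. -/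
structure ValH {n : ℕ} (S : Finset ℕ) (G N : ℕ) (Y : Fin (n + 2) → ℕ) (a : Fin (n + 2) → ℤ) : Prop where
  mem : ∀ i, a i ∈ Rset S (Y i) N
  sum : ∑ i, a i = 0
  big : ∃ i, (N : ℤ) ≤ G * |a i|
  gcd : ∀ g : ℤ, (∀ i, g ∣ a i) → |g| ≤ G
  few : ∀ p : ℕ, p.Prime → p ∉ S → ∃ i j, i ≠ j ∧ ¬ (p : ℤ) ∣ a i ∧ ¬ (p : ℤ) ∣ a j

end Pool.Agent.Helper97.TX
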